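import Pool.Agent.H207R2.BL.Plane
import Pool.Agent.H207R2.BL.Woodall

/-!
Chromatic polynomials of paths and of triangulated polygons.
-/

set_option autoImplicit false

namespace Pool.Agent.Q112.HA

open Polynomial Pool.Agent.H207R2.BL

/-- Deleting a vertex whose neighbours are pairwise adjacent. -/
theorem count_simplicial {V : Type} [Fintype V] (G : SimpleGraph V) (v : V) (A : Finset V)
    (hA : ∀ x, G.Adj v x ↔ x ∈ A) (hcl : ∀ x ∈ A, ∀ y ∈ A, x ≠ y → G.Adj x y) (k : ℕ) :
    (Nat.card (G.Coloring (Fin k)) : ℝ) =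
      ((k : ℝ) - A.card) * Nat.card ((G.induce {x | x ≠ v}).Coloring (Fin k)) := by
  classical
  rw [card_coloring, card_coloring]
  rw [← (Equiv.funSplitAt v (Fin k)).symm.sum_comp, Fintype.sum_prod_type, Finset.sum_comm,
    Finset.mul_sum]
  refine Finset.sum_congr rfl (fun g _ => ?_)
  have hev : ∀ x : Fin k, (Equiv.funSplitAt v (Fin k)).symm (x, g) v = x := by
    intro x
    simp [Equiv.funSplitAt, Equiv.piSplitAt]
  have heg : ∀ (x : Fin k) (w : V) (hw : w ≠ v),
      (Equiv.funSplitAt v (Fin k)).symm (x, g) w = g ⟨w, hw⟩ := by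
    intro x w hw
    simp [Equiv.funSplitAt, Equiv.piSplitAt, hw]
  have hAv : ∀ x ∈ A, x ≠ v := fun x hx h => by
    have := (hA x).2 hx
    rw [h] at this
    exact G.loopless.irrefl _ this
  by_cases hg : Proper (G.induce {x | x ≠ v}) g
  · have hpr : pr (G.induce {x | x ≠ v}) g = 1 := by
      unfold pr
      rw [if_pos hg]
    rw [hpr, mul_one]
    set B : Finset (Fin k) := A.attach.image (fun x => g ⟨x.1, hAv x.1 x.2⟩) with hB
    have hBc : B.card = A.card := by
      rw [hB, Finset.card_image_of_injective, Finset.card_attach]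
      intro x y hxy
      by_contra hne
      have hne' : x.1 ≠ y.1 := fun h => hne (Subtype.ext h)
      exact hg ⟨x.1, hAv _ x.2⟩ ⟨y.1, hAv _ y.2⟩ (hcl _ x.2 _ y.2 hne') hxy
    have hval : ∀ x : Fin k, pr G ((Equiv.funSplitAt v (Fin k)).symm (x, g)) =
        if x ∈ Bᶜ then 1 else 0 := by
      intro x
      unfold pr
      congr 1
      rw [Finset.mem_compl, hB, Finset.mem_image]
      apply propext
      constructor
      · rintro h ⟨y, _, hy⟩
        have h1 := h v y.1 ((hA _).2 y.2)
        rw [hev, heg _ _ (hAv _ y.2)] at h1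
        exact h1 hy.symm
      · intro h a b hab
        by_cases hav : a = v
        · by_cases hbv : b = v
          · rw [hav, hbv] at hab
            exact absurd hab (G.loopless.irrefl _)
          · rw [hav, hev, heg _ _ hbv]
            rw [hav] at hab
            intro hxb
            exact h ⟨⟨b, (hA b).1 hab⟩, Finset.mem_attach _ _, hxb.symm⟩
        · by_cases hbv : b = v
          · rw [hbv, hev, heg _ _ hav]
            rw [hbv] at hab
            intro hxb
            exact h ⟨⟨a, (hA a).1 hab.symm⟩, Finset.mem_attach _ _, hxb⟩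
          · rw [heg _ _ hav, heg _ _ hbv]
            exact hg ⟨a, hav⟩ ⟨b, hbv⟩ hab
    rw [Finset.sum_congr rfl (fun x _ => hval x), Finset.sum_ite_mem, Finset.univ_inter,
      Finset.sum_const, nsmul_eq_mul, mul_one, Finset.card_compl, Fintype.card_fin, hBc]
    rw [Nat.cast_sub]
    rw [← hBc]
    exact (Finset.card_le_univ B).trans (by rw [Fintype.card_fin])
  · have hpr : pr (G.induce {x | x ≠ v}) g = 0 := by
      unfold pr
      rw [if_neg hg]
    rw [hpr, mul_zero]
    apply Finset.sum_eq_zero
    intro x _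
    unfold pr
    rw [if_neg]
    intro h
    apply hg
    intro a b hab
    have h1 := h a.1 b.1 hab
    rw [heg _ _ a.2, heg _ _ b.2] at h1
    exact h1

/-- No two edges cross when the vertices are placed on a circle in their linear order. -/
def NC {V : Type} [LinearOrder V] (T : SimpleGraph V) : Prop :=
  ∀ i j k l : V, i < j → j < k → k < l → T.Adj i k → ¬ T.Adj j l

/-- the pair `a < b` is crossed by no edge -/
def Free {V : Type} [LinearOrder V] (T : SimpleGraph V) (a b : V) : Prop :=
  ∀ c d, T.Adj c d → c < d → ¬ (a < c ∧ c < b ∧ b < d) ∧ ¬ (c < a ∧ a < d ∧ d < b)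

/-- all uncrossed pairs are edges -/
def Full {V : Type} [LinearOrder V] (T : SimpleGraph V) : Prop :=
  ∀ a b, a < b → Free T a b → T.Adj a b

theorem full_of_maximal {V : Type} [LinearOrder V] (T : SimpleGraph V) (hT : NC T)
    (hmax : ∀ T' : SimpleGraph V, NC T' → T ≤ T' → T' = T) : Full T := by
  intro a b hab hfree
  have hT' : NC (T ⊔ SimpleGraph.edge a b) := by
    intro i j k l hij hjk hkl h1 h2
    rw [SimpleGraph.sup_adj, SimpleGraph.edge_adj] at h1 h2
    rcases h1 with h1 | ⟨h1, _⟩
    · rcases h2 with h2 | ⟨h2, _⟩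
      · exact hT i j k l hij hjk hkl h1 h2
      · rcases h2 with ⟨rfl, rfl⟩ | ⟨rfl, rfl⟩
        · exact (hfree i k h1 (hij.trans hjk)).2 ⟨hij, hjk, hkl⟩
        · exact absurd (hjk.trans hkl) (not_lt.2 hab.le)
    · rcases h2 with h2 | ⟨h2, _⟩
      · rcases h1 with ⟨rfl, rfl⟩ | ⟨rfl, rfl⟩
        · exact (hfree j l h2 (hjk.trans hkl)).1 ⟨hij, hjk, hkl⟩
        · exact absurd (hij.trans hjk) (not_lt.2 hab.le)
      · rcases h1 with ⟨rfl, rfl⟩ | ⟨rfl, rfl⟩
        · rcases h2 with ⟨rfl, rfl⟩ | ⟨rfl, rfl⟩
          · exact absurd hij (lt_irrefl _)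
          · exact absurd hjk (lt_irrefl _)
        · exact absurd (hij.trans hjk) (not_lt.2 hab.le)
  have h1 := hmax _ hT' le_sup_left
  have h2 : (T ⊔ SimpleGraph.edge a b).Adj a b := by
    rw [SimpleGraph.sup_adj, SimpleGraph.edge_adj]
    exact Or.inr ⟨Or.inl ⟨rfl, rfl⟩, hab.ne⟩
  rw [h1] at h2
  exact h2

/-- A full noncrossing graph has an ear. -/
theorem exists_ear {V : Type} [LinearOrder V] [Fintype V] (T : SimpleGraph V) (hT : NC T)
    (hF : Full T) (h3 : 3 ≤ Fintype.card V) :
    ∃ a l b : V, a < l ∧ l < b ∧ T.Adj a b ∧ T.Adj a l ∧ T.Adj l b ∧ (∀ x, T.Adj l x ↔ x = a ∨ x = b) ∧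
      (∀ x, a < x → x < b → x = l) := by
  classical
  -- chords with something in between
  set S : Finset (V × V) := Finset.univ.filter (fun p => T.Adj p.1 p.2 ∧ ∃ x, p.1 < x ∧ x < p.2) with hS
  have hne : S.Nonempty := by
    have : Nonempty V := Fintype.card_pos_iff.1 (by omega)
    have hU : (Finset.univ : Finset V).Nonempty := Finset.univ_nonempty
    set m := (Finset.univ : Finset V).min' hU
    set M := (Finset.univ : Finset V).max' hU
    have hm : ∀ x, m ≤ x := fun x => Finset.min'_le _ x (Finset.mem_univ x)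
    have hM : ∀ x, x ≤ M := fun x => Finset.le_max' _ x (Finset.mem_univ x)
    obtain ⟨x, hx⟩ : ∃ x, x ∉ ({m, M} : Finset V) := by
      by_contra hcon
      push Not at hcon
      have h1 : (Finset.univ : Finset V) ⊆ {m, M} := fun x _ => hcon x
      have h2 := Finset.card_le_card h1
      have h3' : ({m, M} : Finset V).card ≤ 2 := Finset.card_le_two
      rw [Finset.card_univ] at h2
      omega
    rw [Finset.mem_insert, Finset.mem_singleton, not_or] at hx
    have hmx : m < x := lt_of_le_of_ne (hm x) (Ne.symm hx.1)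
    have hxM : x < M := lt_of_le_of_ne (hM x) hx.2
    refine ⟨(m, M), Finset.mem_filter.2 ⟨Finset.mem_univ _, ?_, x, hmx, hxM⟩⟩
    refine hF m M (hmx.trans hxM) ?_
    intro c d _ _
    exact ⟨fun h => absurd h.2.2 (not_lt.2 (hM d)), fun h => absurd h.1 (not_lt.2 (hm c))⟩
  obtain ⟨⟨a, b⟩, hp, hmin⟩ := Finset.exists_min_image S
    (fun p => (Finset.univ.filter (fun x => p.1 < x ∧ x < p.2)).card) hne
  obtain ⟨_, hab, x0, hx0, hx0'⟩ := Finset.mem_filter.1 hp
  simp only at hab hx0 hx0'
  -- the neighbours of `a` in between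
  have hsucc : ∃ s, a < s ∧ s < b ∧ T.Adj a s := by
    set I := Finset.univ.filter (fun x => a < x ∧ x < b) with hI
    have hIne : I.Nonempty := ⟨x0, Finset.mem_filter.2 ⟨Finset.mem_univ _, hx0, hx0'⟩⟩
    set s := I.min' hIne
    have hs := (Finset.mem_filter.1 (I.min'_mem hIne)).2
    have hsmin : ∀ x, a < x → ¬ x < s := by
      intro x hax hxs
      have : x ∈ I := Finset.mem_filter.2 ⟨Finset.mem_univ _, hax, hxs.trans hs.2⟩
      exact absurd (I.min'_le x this) (not_le.2 hxs)
    refine ⟨s, hs.1, hs.2, hF a s hs.1 ?_⟩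
    intro c d _ _
    exact ⟨fun h => hsmin c h.1 h.2.1, fun h => hsmin d h.2.1 h.2.2⟩
  set J := Finset.univ.filter (fun x => a < x ∧ x < b ∧ T.Adj a x) with hJ
  have hJne : J.Nonempty := by
    obtain ⟨s, h1, h2, h3⟩ := hsucc
    exact ⟨s, Finset.mem_filter.2 ⟨Finset.mem_univ _, h1, h2, h3⟩⟩
  set l := J.max' hJne
  have hl := (Finset.mem_filter.1 (J.max'_mem hJne)).2
  have hlmax : ∀ x, l < x → x < b → ¬ T.Adj a x := by
    intro x hx hxb hax
    have : x ∈ J := Finset.mem_filter.2 ⟨Finset.mem_univ _, hl.1.trans hx, hxb, hax⟩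
    exact absurd (J.le_max' x this) (not_le.2 hx)
  have hlb : T.Adj l b := by
    refine hF l b hl.2.1 ?_
    intro c d hcd hcd'
    constructor
    · rintro ⟨h1, h2, h3⟩
      exact hT a c b d (hl.1.trans h1) h2 h3 hab hcd
    · rintro ⟨h1, h2, h3⟩
      rcases lt_trichotomy c a with h | h | h
      · exact hT c a d b h (hl.1.trans h2) h3 hcd hab
      · rw [h] at hcd
        exact hlmax d h2 h3 hcd
      · exact hT a c l d h h1 h2 hl.2.2 hcd
  have hfew : ∀ c d, a ≤ c → d ≤ b → (a < c ∨ d < b) → T.Adj c d → ∀ x, c < x → ¬ x < d := by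
    intro c d hc hd hs hcd x hx hx'
    have hmem : (c, d) ∈ S := Finset.mem_filter.2 ⟨Finset.mem_univ _, hcd, x, hx, hx'⟩
    have h1 := hmin _ hmem
    simp only at h1
    have h2 : (Finset.univ.filter (fun x => c < x ∧ x < d)) ⊂
        (Finset.univ.filter (fun x => a < x ∧ x < b)) := by
      rw [Finset.ssubset_iff_of_subset]
      · rcases hs with hs | hs
        · refine ⟨c, ?_, ?_⟩
          · exact Finset.mem_filter.2 ⟨Finset.mem_univ _, hs, (hx.trans hx').trans_le hd⟩
          · intro h
            exact absurd (Finset.mem_filter.1 h).2.1 (lt_irrefl _)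
        · refine ⟨d, ?_, ?_⟩
          · exact Finset.mem_filter.2 ⟨Finset.mem_univ _, lt_of_le_of_lt hc (hx.trans hx'), hs⟩
          · intro h
            exact absurd (Finset.mem_filter.1 h).2.2 (lt_irrefl _)
      · intro y hy
        obtain ⟨_, hy1, hy2⟩ := Finset.mem_filter.1 hy
        exact Finset.mem_filter.2 ⟨Finset.mem_univ _, lt_of_le_of_lt hc hy1, lt_of_lt_of_le hy2 hd⟩
    exact absurd h1 (not_le.2 (Finset.card_lt_card h2))
  have hbetween : ∀ x, a < x → x < b → x = l := by
    intro x h1 h2
    rcases lt_trichotomy x l with h | h | h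
    · exact absurd h (hfew a l le_rfl hl.2.1.le (Or.inr hl.2.1) hl.2.2 x h1)
    · exact h
    · exact absurd h2 (hfew l b hl.1.le le_rfl (Or.inl hl.1) hlb x h)
  refine ⟨a, l, b, hl.1, hl.2.1, hab, hl.2.2, hlb, ?_, hbetween⟩
  intro x
  constructor
  · intro h
    by_contra hcon
    push Not at hcon
    rcases lt_trichotomy x a with h1 | h1 | h1
    · exact hT x a l b h1 hl.1 hl.2.1 h.symm hab
    · exact hcon.1 h1
    · rcases lt_trichotomy x b with h2 | h2 | h2
      · have := hbetween x h1 h2
        rw [this] at h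
        exact T.loopless.irrefl _ h
      · exact hcon.2 h2
      · exact hT a l b x hl.1 hl.2.1 h2 hab h
  · rintro (rfl | rfl)
    · exact hl.2.2.symm
    · exact hlb

theorem count_full (k : ℕ) : ∀ (n : ℕ) (V : Type) [LinearOrder V] [Fintype V] (T : SimpleGraph V),
    Fintype.card V = n + 2 → NC T → Full T →
    (Nat.card (T.Coloring (Fin k)) : ℝ) = k * (k - 1) * (k - 2) ^ n := by
  intro n
  induction n with
  | zero =>
    intro V _ _ T hV hT hF
    classical
    obtain ⟨a, b, hab, hU⟩ : ∃ a b : V, a < b ∧ ∀ x, x = a ∨ x = b := by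
      have h2 : (Finset.univ : Finset V).card = 2 := by rw [Finset.card_univ, hV]
      obtain ⟨a, b, hab, h⟩ := Finset.card_eq_two.1 h2
      have hx : ∀ x, x = a ∨ x = b := by
        intro x
        have := Finset.mem_univ x
        rw [h, Finset.mem_insert, Finset.mem_singleton] at this
        exact this
      rcases lt_or_gt_of_ne hab with h' | h'
      · exact ⟨a, b, h', hx⟩
      · exact ⟨b, a, h', fun x => (hx x).symm⟩
    have hadj : T.Adj a b := by
      refine hF a b hab ?_
      intro c d _ _
      constructor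
      · rintro ⟨h1, h2, _⟩
        rcases hU c with h | h
        · rw [h] at h1; exact lt_irrefl _ h1
        · rw [h] at h2; exact lt_irrefl _ h2
      · rintro ⟨_, h1, h2⟩
        rcases hU d with h | h
        · rw [h] at h1; exact lt_irrefl _ h1
        · rw [h] at h2; exact lt_irrefl _ h2
    rw [count_simplicial T a {b} (by
      intro x
      rw [Finset.mem_singleton]
      constructor
      · intro h
        rcases hU x with h' | h'
        · rw [h'] at h; exact absurd h (T.loopless.irrefl _)
        · exact h'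
      · rintro rfl; exact hadj) (by
      intro x hx y hy hne
      rw [Finset.mem_singleton] at hx hy
      exact absurd (hx.trans hy.symm) hne)]
    rw [count_simplicial (T.induce {x | x ≠ a}) ⟨b, hab.ne'⟩ ∅ (by
      intro x
      simp only [Finset.notMem_empty, iff_false]
      intro h
      rcases hU x.1 with h' | h'
      · exact x.2 h'
      · have : x = ⟨b, hab.ne'⟩ := Subtype.ext h'
        rw [this] at h
        exact absurd h ((T.induce {x | x ≠ a}).loopless.irrefl _)) (by
      intro x hx
      exact absurd hx (Finset.notMem_empty _))]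
    have hem : IsEmpty {x : {x : V | x ≠ a} | x ≠ ⟨b, hab.ne'⟩} := by
      constructor
      rintro ⟨x, hx⟩
      rcases hU x.1 with h' | h'
      · exact x.2 h'
      · exact hx (Subtype.ext h')
    have hone : (Nat.card (((T.induce {x | x ≠ a}).induce
        {x : {x : V | x ≠ a} | x ≠ ⟨b, hab.ne'⟩}).Coloring (Fin k)) : ℝ) = 1 := by
      rw [card_coloring]
      have : Unique ({x : {x : V | x ≠ a} | x ≠ ⟨b, hab.ne'⟩} → Fin k) := Pi.uniqueOfIsEmpty _
      rw [Fintype.sum_unique]
      unfold pr
      rw [if_pos]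
      intro x
      exact hem.elim x
    rw [hone]
    simp
    ring
  | succ n ih =>
    intro V _ _ T hV hT hF
    classical
    obtain ⟨a, l, b, hal, hlb, hab, hal', hlb', hN, hbet⟩ := exists_ear T hT hF (by omega)
    have hab' : a ≠ b := (hal.trans hlb).ne
    rw [count_simplicial T l {a, b} (by
      intro x
      rw [hN, Finset.mem_insert, Finset.mem_singleton]) (by
      intro x hx y hy hne
      rw [Finset.mem_insert, Finset.mem_singleton] at hx hy
      rcases hx with rfl | rfl <;> rcases hy with rfl | rfl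
      · exact absurd rfl hne
      · exact hab
      · exact hab.symm
      · exact absurd rfl hne)]
    have hcard : Fintype.card {x : V | x ≠ l} = n + 2 := by
      have h1 : Fintype.card {x : V | x ≠ l} = Fintype.card V - 1 := Set.card_ne_eq l
      rw [h1, hV]
      omega
    rw [ih {x : V | x ≠ l} (T.induce {x | x ≠ l}) hcard (by
      intro i j k l' hij hjk hkl h1 h2
      exact hT i.1 j.1 k.1 l'.1 hij hjk hkl h1 h2) (by
      intro x y hxy hfree
      refine hF x.1 y.1 hxy ?_
      intro c d hcd hcd'
      by_cases hc : c = l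
      · rw [hc] at hcd hcd' ⊢
        rcases (hN d).1 hcd with h | h
        · rw [h] at hcd'
          exact absurd hcd' (not_lt.2 hal.le)
        · rw [h]
          constructor
          · rintro ⟨h1, h2, h3⟩
            exact y.2 (hbet y.1 (hal.trans h2) h3)
          · rintro ⟨h1, h2, h3⟩
            exact x.2 (hbet x.1 (hal.trans h1) h2)
      · by_cases hd : d = l
        · rw [hd] at hcd hcd' ⊢
          rcases (hN c).1 hcd.symm with h | h
          · rw [h]
            constructor
            · rintro ⟨h1, h2, h3⟩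
              exact y.2 (hbet y.1 h2 (h3.trans hlb))
            · rintro ⟨h1, h2, h3⟩
              exact x.2 (hbet x.1 h1 (h2.trans hlb))
          · rw [h] at hcd'
            exact absurd hcd' (not_lt.2 hlb.le)
        · exact hfree ⟨c, hc⟩ ⟨d, hd⟩ hcd hcd')]
    rw [Finset.card_pair hab']
    push_cast
    ring

theorem count_path (k : ℕ) : ∀ (n : ℕ) (V : Type) [LinearOrder V] [Fintype V] (T : SimpleGraph V),
    Fintype.card V = n + 1 → (∀ x y, T.Adj x y ↔ x ⋖ y ∨ y ⋖ x) →
    (Nat.card (T.Coloring (Fin k)) : ℝ) = k * (k - 1) ^ n := by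
  intro n
  induction n with
  | zero =>
    intro V _ _ T hV hT
    classical
    obtain ⟨a, ha⟩ := Fintype.card_eq_one_iff.1 hV
    rw [count_simplicial T a ∅ (by
      intro x
      simp only [Finset.notMem_empty, iff_false]
      intro h
      rw [ha x] at h
      exact T.loopless.irrefl _ h) (by
      intro x hx
      exact absurd hx (Finset.notMem_empty _))]
    have hem : IsEmpty {x : V | x ≠ a} := ⟨fun x => x.2 (ha x.1)⟩
    have hone : (Nat.card ((T.induce {x | x ≠ a}).Coloring (Fin k)) : ℝ) = 1 := by
      rw [card_coloring]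
      have : Unique ({x : V | x ≠ a} → Fin k) := Pi.uniqueOfIsEmpty _
      rw [Fintype.sum_unique]
      unfold pr
      rw [if_pos]
      intro x
      exact hem.elim x
    rw [hone]
    simp
  | succ n ih =>
    intro V _ _ T hV hT
    classical
    have hne : Nonempty V := Fintype.card_pos_iff.1 (by omega)
    have hU : (Finset.univ : Finset V).Nonempty := Finset.univ_nonempty
    set M := (Finset.univ : Finset V).max' hU with hMd
    have hM : ∀ x, x ≤ M := fun x => Finset.le_max' _ x (Finset.mem_univ x)
    set I := (Finset.univ : Finset V).filter (fun x => x ≠ M) with hI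
    have hIne : I.Nonempty := by
      have h1 : I.card = n + 1 := by
        rw [hI, Finset.filter_ne', Finset.card_erase_of_mem (Finset.mem_univ _),
          Finset.card_univ, hV]
        omega
      exact Finset.card_pos.1 (by omega)
    set p := I.max' hIne with hp
    have hpM : p < M := lt_of_le_of_ne (hM p) (Finset.mem_filter.1 (I.max'_mem hIne)).2
    have hpmax : ∀ x, p < x → x = M := by
      intro x hx
      by_contra hne
      have : x ∈ I := Finset.mem_filter.2 ⟨Finset.mem_univ _, hne⟩
      exact absurd (I.le_max' x this) (not_le.2 hx)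
    have hN : ∀ x, T.Adj M x ↔ x ∈ ({p} : Finset V) := by
      intro x
      rw [Finset.mem_singleton, hT]
      constructor
      · rintro (h | h)
        · exact absurd h.1 (not_lt.2 (hM x))
        · rcases lt_trichotomy x p with h' | h' | h'
          · exact absurd hpM (h.2 h')
          · exact h'
          · exact absurd h.1 (by rw [hpmax x h']; exact lt_irrefl _)
      · rintro rfl
        right
        exact ⟨hpM, fun c hc hc' => absurd hc' (by rw [hpmax c hc]; exact lt_irrefl _)⟩
    rw [count_simplicial T M {p} hN (by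
      intro x hx y hy hne
      rw [Finset.mem_singleton] at hx hy
      exact absurd (hx.trans hy.symm) hne)]
    have hcard : Fintype.card {x : V | x ≠ M} = n + 1 := by
      have h1 : Fintype.card {x : V | x ≠ M} = Fintype.card V - 1 := Set.card_ne_eq M
      rw [h1, hV]
      omega
    have hcov : ∀ x y : {x : V | x ≠ M}, x ⋖ y ↔ x.1 ⋖ y.1 := by
      intro x y
      constructor
      · intro h
        refine ⟨h.1, ?_⟩
        intro c hc hc'
        have hcM : c ≠ M := fun hcM => absurd hc' (by rw [hcM]; exact not_lt.2 (hM _))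
        exact h.2 (c := ⟨c, hcM⟩) hc hc'
      · intro h
        exact ⟨h.1, fun c hc hc' => h.2 hc hc'⟩
    rw [ih {x : V | x ≠ M} (T.induce {x | x ≠ M}) hcard (by
      intro x y
      rw [hcov, hcov]
      exact hT x.1 y.1)]
    rw [Finset.card_singleton]
    push_cast
    ring

end Pool.Agent.Q112.HA
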