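import Pool.Agent.Q112.HamCount

/-!
The union of two noncrossing graphs is planar: draw the first one above and the second one below
the real axis, with half circles.
-/

set_option autoImplicit false

namespace Pool.Agent.Q112.HA

open Polynomial Pool.Agent.H207R2.BL

open Classical in
/-- the half circle, above or below the axis -/
noncomputable def arc {m : ℕ} (T : SimpleGraph (Fin m)) (u v : Fin m) (t : ℝ) : ℝ × ℝ :=
  (((u : ℕ) : ℝ) + t * (((v : ℕ) : ℝ) - ((u : ℕ) : ℝ)),
    (if T.Adj u v then 1 else -1) * (|((v : ℕ) : ℝ) - ((u : ℕ) : ℝ)| * Real.sqrt (t * (1 - t))))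

theorem arc_key {a b c d x : ℝ} (h : (x - a) * (b - x) = (x - c) * (d - x)) (ha : a < x)
    (hb : x < b) (hca : c ≤ a) (hbd : b ≤ d) : a = c ∧ b = d := by
  have h1 : 0 < x - a := by linarith
  have h2 : 0 < b - x := by linarith
  constructor
  · by_contra hne
    have : c < a := lt_of_le_of_ne hca (Ne.symm hne)
    nlinarith [mul_pos h1 h2, mul_nonneg (sub_nonneg.2 hca) (sub_nonneg.2 hbd),
      mul_pos (sub_pos.2 this) h2]
  · by_contra hne
    have : b < d := lt_of_le_of_ne hbd hne
    nlinarith [mul_pos h1 h2, mul_nonneg (sub_nonneg.2 hca) (sub_nonneg.2 hbd),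
      mul_pos h1 (sub_pos.2 this)]

/-- two half circles on the same side which meet -/
theorem arc_meet {m : ℕ} (T : SimpleGraph (Fin m)) (hT : NC T) (u v u' v' : Fin m)
    (huv : T.Adj u v) (huv' : T.Adj u' v') (x : ℝ)
    (h1 : ((min u v : Fin m) : ℕ) < x) (h2 : x < ((max u v : Fin m) : ℕ))
    (h1' : ((min u' v' : Fin m) : ℕ) < x) (h2' : x < ((max u' v' : Fin m) : ℕ))
    (h : (x - ((min u v : Fin m) : ℕ)) * (((max u v : Fin m) : ℕ) - x) =
      (x - ((min u' v' : Fin m) : ℕ)) * (((max u' v' : Fin m) : ℕ) - x)) :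
    min u v = min u' v' ∧ max u v = max u' v' := by
  set a := min u v with ha
  set b := max u v with hb
  set c := min u' v' with hc
  set d := max u' v' with hd
  have hab : T.Adj a b := by
    rcases le_total u v with h | h
    · rw [ha, hb, min_eq_left h, max_eq_right h]; exact huv
    · rw [ha, hb, min_eq_right h, max_eq_left h]; exact huv.symm
  have hcd : T.Adj c d := by
    rcases le_total u' v' with h | h
    · rw [hc, hd, min_eq_left h, max_eq_right h]; exact huv'
    · rw [hc, hd, min_eq_right h, max_eq_left h]; exact huv'.symm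
  have had : a < d := by
    have : ((a : ℕ) : ℝ) < ((d : ℕ) : ℝ) := by linarith
    exact_mod_cast this
  have hcb : c < b := by
    have : ((c : ℕ) : ℝ) < ((b : ℕ) : ℝ) := by linarith
    exact_mod_cast this
  have cast_eq : ∀ y z : Fin m, ((y : ℕ) : ℝ) = ((z : ℕ) : ℝ) → y = z := by
    intro y z hyz
    exact Fin.ext (by exact_mod_cast hyz)
  have cast_le : ∀ y z : Fin m, y ≤ z → ((y : ℕ) : ℝ) ≤ ((z : ℕ) : ℝ) := by
    intro y z hyz
    exact_mod_cast hyz
  rcases le_or_gt c a with hca | hca
  · rcases le_or_gt b d with hbd | hbd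
    · have := arc_key h h1 h2 (cast_le _ _ hca) (cast_le _ _ hbd)
      exact ⟨cast_eq _ _ this.1, cast_eq _ _ this.2⟩
    · rcases eq_or_lt_of_le hca with hca' | hca'
      · have := arc_key h.symm h1' h2' (cast_le _ _ hca'.ge) (cast_le _ _ hbd.le)
        exact ⟨(cast_eq _ _ this.1).symm, (cast_eq _ _ this.2).symm⟩
      · exact absurd hab (hT c a d b hca' had hbd hcd)
  · rcases le_or_gt d b with hbd | hbd
    · have := arc_key h.symm h1' h2' (cast_le _ _ hca.le) (cast_le _ _ hbd)
      exact ⟨(cast_eq _ _ this.1).symm, (cast_eq _ _ this.2).symm⟩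
    · exact absurd hcd (hT a c b d hca hcb hbd hab)

theorem arc_sq {m : ℕ} (T : SimpleGraph (Fin m)) (u v : Fin m) (t : ℝ) (ht : t ∈ Set.Ioo (0:ℝ) 1) :
    (arc T u v t).2 ^ 2 =
      ((arc T u v t).1 - ((min u v : Fin m) : ℕ)) * (((max u v : Fin m) : ℕ) - (arc T u v t).1) := by
  have h0 : 0 ≤ t * (1 - t) := mul_nonneg ht.1.le (by linarith [ht.2])
  have h1 : ∀ s : ℝ, s = 1 ∨ s = -1 →
      (s * (|((v : ℕ) : ℝ) - ((u : ℕ) : ℝ)| * Real.sqrt (t * (1 - t)))) ^ 2 =
      (((v : ℕ) : ℝ) - ((u : ℕ) : ℝ)) ^ 2 * (t * (1 - t)) := by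
    intro s hs
    have hs2 : s ^ 2 = 1 := by rcases hs with rfl | rfl <;> norm_num
    rw [mul_pow, mul_pow, hs2, one_mul, sq_abs, Real.sq_sqrt h0]
  unfold arc
  rw [h1 _ (by split_ifs <;> simp)]
  rcases le_total u v with h | h
  · rw [min_eq_left h, max_eq_right h]
    ring
  · rw [min_eq_right h, max_eq_left h]
    ring

theorem arc_between {m : ℕ} (T : SimpleGraph (Fin m)) (u v : Fin m) (huv : u ≠ v) (t : ℝ)
    (ht : t ∈ Set.Ioo (0:ℝ) 1) :
    ((min u v : Fin m) : ℕ) < (arc T u v t).1 ∧ (arc T u v t).1 < ((max u v : Fin m) : ℕ) := by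
  unfold arc
  rcases lt_or_gt_of_ne huv with h | h
  · have h' : ((u : ℕ) : ℝ) < ((v : ℕ) : ℝ) := by exact_mod_cast h
    rw [min_eq_left h.le, max_eq_right h.le]
    constructor <;> nlinarith [ht.1, ht.2]
  · have h' : ((v : ℕ) : ℝ) < ((u : ℕ) : ℝ) := by exact_mod_cast h
    rw [min_eq_right h.le, max_eq_left h.le]
    constructor <;> nlinarith [ht.1, ht.2]

theorem union_planar {m : ℕ} (T T' : SimpleGraph (Fin m)) (hT : NC T) (hT' : NC T') :
    ∃ (f : Fin m → ℝ × ℝ) (γ : Fin m → Fin m → ℝ → ℝ × ℝ), IsDrawing (T ⊔ T') f γ := by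
  classical
  refine ⟨fun i => (((i : ℕ) : ℝ), 0), arc T, ?_, ?_, ?_⟩
  · intro i j h
    have := congrArg Prod.fst h
    simp only at this
    exact Fin.ext (by exact_mod_cast this)
  · intro u v huv
    have hne : u ≠ v := huv.ne
    have hneR : ((v : ℕ) : ℝ) - ((u : ℕ) : ℝ) ≠ 0 := by
      rw [sub_ne_zero]
      intro h
      exact hne (Fin.ext (by exact_mod_cast h.symm))
    refine ⟨?_, ?_, ?_, ?_, ?_⟩
    · apply Continuous.continuousOn
      unfold arc
      fun_prop
    · intro s _ t _ hst
      have := congrArg Prod.fst hst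
      unfold arc at this
      simp only at this
      have h2 : (s - t) * (((v : ℕ) : ℝ) - ((u : ℕ) : ℝ)) = 0 := by linarith
      rcases mul_eq_zero.1 h2 with h | h
      · linarith
      · exact absurd h hneR
    · unfold arc
      simp
    · unfold arc
      simp
    · intro t ht w hw
      have h2 := congrArg Prod.snd hw
      unfold arc at h2
      simp only at h2
      have h3 : 0 < Real.sqrt (t * (1 - t)) := Real.sqrt_pos.2 (mul_pos ht.1 (by linarith [ht.2]))
      have h4 : 0 < |((v : ℕ) : ℝ) - ((u : ℕ) : ℝ)| := abs_pos.2 hneR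
      rcases mul_eq_zero.1 h2 with h5 | h5
      · split_ifs at h5 <;> norm_num at h5
      · exact absurd h5 (mul_pos h4 h3).ne'
  · intro u v u' v' huv huv' hne t ht t' ht' heq
    have hside : T.Adj u v ↔ T.Adj u' v' := by
      have h2 := congrArg Prod.snd heq
      unfold arc at h2
      simp only at h2
      have h3 : ∀ (a b : Fin m) (s : ℝ), a ≠ b → s ∈ Set.Ioo (0:ℝ) 1 →
          0 < |((b : ℕ) : ℝ) - ((a : ℕ) : ℝ)| * Real.sqrt (s * (1 - s)) := by
        intro a b s hab hs
        apply mul_pos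
        · apply abs_pos.2
          rw [sub_ne_zero]
          intro h
          exact hab (Fin.ext (by exact_mod_cast h.symm))
        · exact Real.sqrt_pos.2 (mul_pos hs.1 (by linarith [hs.2]))
      have h4 := h3 u v t huv.ne ht
      have h5 := h3 u' v' t' huv'.ne ht'
      constructor
      · intro h
        by_contra hc
        rw [if_pos h, if_neg hc] at h2
        linarith
      · intro h
        by_contra hc
        rw [if_pos h, if_neg hc] at h2
        linarith
    have hx : (arc T u v t).1 = (arc T u' v' t').1 := congrArg Prod.fst heq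
    have hy : (arc T u v t).2 = (arc T u' v' t').2 := congrArg Prod.snd heq
    have hb := arc_between T u v huv.ne t ht
    have hb' := arc_between T u' v' huv'.ne t' ht'
    have hs := arc_sq T u v t ht
    have hs' := arc_sq T u' v' t' ht'
    rw [hy, hs', hx] at hs
    rw [hx] at hb
    have hres : min u v = min u' v' ∧ max u v = max u' v' := by
      by_cases h : T.Adj u v
      · exact arc_meet T hT u v u' v' h (hside.1 h) _ hb.1 hb.2 hb'.1 hb'.2 hs.symm
      · have h' : ¬ T.Adj u' v' := fun h' => h (hside.2 h')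
        exact arc_meet T' hT' u v u' v' (huv.resolve_left h) (huv'.resolve_left h') _ hb.1 hb.2
          hb'.1 hb'.2 hs.symm
    apply hne
    obtain ⟨h1, h2⟩ := hres
    rcases le_total u v with h | h <;> rcases le_total u' v' with h' | h'
    · rw [min_eq_left h, min_eq_left h'] at h1
      rw [max_eq_right h, max_eq_right h'] at h2
      rw [h1, h2]
    · rw [min_eq_left h, min_eq_right h'] at h1
      rw [max_eq_right h, max_eq_left h'] at h2
      rw [h1, h2, Sym2.eq_swap]
    · rw [min_eq_right h, min_eq_left h'] at h1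
      rw [max_eq_left h, max_eq_right h'] at h2
      rw [h1, h2, Sym2.eq_swap]
    · rw [min_eq_right h, min_eq_right h'] at h1
      rw [max_eq_left h, max_eq_left h'] at h2
      rw [h1, h2]

end Pool.Agent.Q112.HA
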