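import Pool.Agent.Q112.HamCount

/-!
Reflection positivity for arbitrary families of halves, and for polygon graphs.
-/

set_option autoImplicit false

namespace Pool.Agent.Q112.HA

open Polynomial Pool.Agent.H207R2.BL

/-- the graph `T` as a half without interior vertices -/
def half {m : ℕ} (T : SimpleGraph (Fin m)) : SimpleGraph (Empty ⊕ Fin m) :=
  T.comap (fun x => x.elim (fun e => e.elim) id)

theorem half_crossless {m : ℕ} (T : SimpleGraph (Fin m)) (hT : NC T) : Crossless (half T) := by
  intro i j k l hij hjk hkl p p'
  by_contra hcon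
  push Not at hcon
  -- the value of a vertex
  let φ : Empty ⊕ Fin m → Fin m := fun x => x.elim (fun e => e.elim) id
  have hφ : ∀ x, Sum.inr (φ x) = x := by
    rintro (x | x)
    · exact x.elim
    · rfl
  have hinj : Function.Injective φ := fun x y h => by rw [← hφ x, ← hφ y, h]
  have hadj : ∀ x y, (half T).Adj x y ↔ T.Adj (φ x) (φ y) := fun x y => Iff.rfl
  -- one edge of the second walk
  have hedge : ∀ x y : Empty ⊕ Fin m, (half T).Adj x y → x ∉ p.support → y ∉ p.support →
      φ x < φ y → ((φ x < i ∧ i < φ y) ↔ (φ x < k ∧ k < φ y)) := by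
    intro x y hxy hx hy hlt
    have hstep : ∀ u v : Empty ⊕ Fin m, u ∈ p.support → v ∈ p.support → (half T).Adj u v →
        (φ x < φ u ∧ φ u < φ y) → (φ x < φ v ∧ φ v < φ y) := by
      intro u v hu hv huv h
      have hvx : φ v ≠ φ x := fun h' => hx (hinj h' ▸ hv)
      have hvy : φ v ≠ φ y := fun h' => hy (hinj h' ▸ hv)
      constructor
      · by_contra hc
        have : φ v < φ x := lt_of_le_of_ne (not_lt.1 hc) hvx
        exact hT (φ v) (φ x) (φ u) (φ y) this h.1 h.2 ((hadj _ _).1 huv.symm) ((hadj _ _).1 hxy)
      · by_contra hc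
        have : φ y < φ v := lt_of_le_of_ne (not_lt.1 hc) (Ne.symm hvy)
        exact hT (φ x) (φ u) (φ y) (φ v) h.1 h.2 this ((hadj _ _).1 hxy) ((hadj _ _).1 huv)
    constructor
    · intro h
      by_contra hc
      obtain ⟨d, hd, h1, h2⟩ := p.exists_boundary_dart
        {u | φ x < φ u ∧ φ u < φ y} h hc
      exact h2 (hstep d.fst d.snd (p.dart_fst_mem_support_of_mem_darts hd)
        (p.dart_snd_mem_support_of_mem_darts hd) d.adj h1)
    · intro h
      by_contra hc
      obtain ⟨d, hd, h1, h2⟩ := p.exists_boundary_dart
        {u | ¬ (φ x < φ u ∧ φ u < φ y)} hc (fun h' => h' h)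
      apply h1
      exact hstep d.snd d.fst (p.dart_snd_mem_support_of_mem_darts hd)
        (p.dart_fst_mem_support_of_mem_darts hd) d.adj.symm (not_not.1 h2)
  -- along the second walk
  have hip : (Sum.inr i : Empty ⊕ Fin m) ∈ p.support := p.start_mem_support
  have hkp : (Sum.inr k : Empty ⊕ Fin m) ∈ p.support := p.end_mem_support
  obtain ⟨d, hd, h1, h2⟩ := p'.exists_boundary_dart
    {u | i < φ u ∧ φ u < k} ⟨hij, hjk⟩ (fun h => absurd h.2 (not_lt.2 hkl.le))
  have hx : d.fst ∉ p.support := fun h => hcon _ h (p'.dart_fst_mem_support_of_mem_darts hd)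
  have hy : d.snd ∉ p.support := fun h => hcon _ h (p'.dart_snd_mem_support_of_mem_darts hd)
  have hyi : φ d.snd ≠ i := fun h => hy (by rw [← hφ d.snd, h]; exact hip)
  have hyk : φ d.snd ≠ k := fun h => hy (by rw [← hφ d.snd, h]; exact hkp)
  obtain ⟨h1a, h1b⟩ := h1
  apply h2
  rcases lt_trichotomy (φ d.fst) (φ d.snd) with h | h | h
  · have h3 := hedge d.fst d.snd d.adj hx hy h
    refine ⟨h1a.trans h, ?_⟩
    by_contra hc
    have hc' : k < φ d.snd := lt_of_le_of_ne (not_lt.1 hc) (Ne.symm hyk)
    have := h3.2 ⟨h1b, hc'⟩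
    exact absurd this.1 (not_lt.2 h1a.le)
  · have h4 := hinj h
    exact absurd h4 d.adj.ne
  · have h3 := hedge d.snd d.fst d.adj.symm hy hx h
    refine ⟨?_, h.trans h1b⟩
    by_contra hc
    have hc' : φ d.snd < i := lt_of_le_of_ne (not_lt.1 hc) hyi
    have := h3.1 ⟨hc', h1a⟩
    exact absurd this.2 (not_lt.2 h1b.le)

/-- Gluing two halves without interior vertices gives the union of the two graphs. -/
def glueHalf {m : ℕ} (T T' : SimpleGraph (Fin m)) : (T ⊔ T') ≃g glue (half T) (half T') where
  toFun := fun i => Sum.inr i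
  invFun := fun x => x.elim (fun e => e.elim (fun e => e.elim) (fun e => e.elim)) id
  left_inv := fun i => rfl
  right_inv := by
    rintro ((e | e) | i)
    · exact e.elim
    · exact e.elim
    · rfl
  map_rel_iff' := by
    have i1 : Function.Injective (Sum.map Sum.inl id : Empty ⊕ Fin m → (Empty ⊕ Empty) ⊕ Fin m) :=
      Sum.map_injective.2 ⟨Sum.inl_injective, Function.injective_id⟩
    have i2 : Function.Injective (Sum.map Sum.inr id : Empty ⊕ Fin m → (Empty ⊕ Empty) ⊕ Fin m) :=
      Sum.map_injective.2 ⟨Sum.inr_injective, Function.injective_id⟩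
    intro a b
    constructor
    · rintro (⟨_, a', b', h, h1, h2⟩ | ⟨_, a', b', h, h1, h2⟩)
      · rcases a' with e | a'
        · exact e.elim
        · rcases b' with e | b'
          · exact e.elim
          · left
            have h3 : a' = a := Sum.inr_injective h1
            have h4 : b' = b := Sum.inr_injective h2
            rw [← h3, ← h4]
            exact h
      · rcases a' with e | a'
        · exact e.elim
        · rcases b' with e | b'
          · exact e.elim
          · right
            have h3 : a' = a := Sum.inr_injective h1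
            have h4 : b' = b := Sum.inr_injective h2
            rw [← h3, ← h4]
            exact h
    · rintro (h | h)
      · exact Or.inl ⟨fun e => h.ne (Sum.inr_injective e), Sum.inr a, Sum.inr b, h, rfl, rfl⟩
      · exact Or.inr ⟨fun e => h.ne (Sum.inr_injective e), Sum.inr a, Sum.inr b, h, rfl, rfl⟩

theorem quad {A B C : ℝ} (hC : 0 < C) (h : ∀ t : ℝ, 0 ≤ A - 2 * t * B + t ^ 2 * C) :
    B ^ 2 ≤ C * A := by
  have h1 := h (B / C)
  have h2 : C * (A - 2 * (B / C) * B + (B / C) ^ 2 * C) = C * A - B ^ 2 := by
    field_simp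
    ring
  nlinarith [mul_nonneg hC.le h1]

/-- Reflection positivity compared with the half without edges and interior vertices. -/
theorem family {n : ℕ} {J : Type} [Fintype J] (V : J → Type) [∀ i, Finite (V i)]
    (N : ∀ i, SimpleGraph (V i ⊕ Fin n)) (hN : ∀ i, Crossless (N i))
    (p : J → J → ℝ[X]) (hp : ∀ i j, IsChrom (glue (N i) (N j)) (p i j))
    (r : J → ℝ[X]) (hr : ∀ i, IsChrom (N i) (r i))
    (q : ℝ) (hq : 4 ≤ q) (a : J → ℝ) :
    (∑ i, a i * (r i).eval q) ^ 2 ≤ q ^ n * ∑ i, ∑ j, a i * a j * (p i j).eval q := by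
  classical
  have hq0 : 0 < q := by linarith
  refine quad (pow_pos hq0 n) ?_
  intro t
  let VV : Option J → Type := fun o => match o with
    | none => Empty
    | some i => V i
  have hfin : ∀ b, Finite (VV b) := by
    intro b
    cases b
    · exact inferInstanceAs (Finite Empty)
    · rename_i i
      exact inferInstanceAs (Finite (V i))
  let NN : ∀ b, SimpleGraph (VV b ⊕ Fin n) := fun b =>
    match b with
    | none => emptyHalf n
    | some i => N i
  have hNN : ∀ b, Crossless (NN b) := by
    intro b
    cases b
    · exact emptyHalf_crossless n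
    · exact hN _
  let P : Option J → Option J → ℝ[X] := fun a b =>
    match a, b with
    | some i, some j => p i j
    | some i, none => r i
    | none, some i => r i
    | none, none => X ^ n
  have hP : ∀ a b, IsChrom (glue (NN a) (NN b)) (P a b) := by
    intro a b
    cases a with
    | none =>
      cases b with
      | none => exact chrom_empty n
      | some i =>
        have hr1 : IsChrom (glue (N i) (emptyHalf n)) (r i) := (hr i).of_iso (glueEmpty (N i))
        intro k
        change (r i).eval (k : ℝ) = (Nat.card ((glue (emptyHalf n) (N i)).Coloring (Fin k)) : ℝ)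
        rw [hr1 k]
        have : Fintype (V i) := Fintype.ofFinite (V i)
        rw [card_glue, card_glue]
        exact Finset.sum_congr rfl (fun c _ => mul_comm _ _)
    | some i =>
      cases b with
      | none => exact (hr i).of_iso (glueEmpty (N i))
      | some j => exact hp i j
  have := psd VV NN hNN P hP q hq (fun o => match o with
    | none => -t
    | some i => a i)
  simp only [Fintype.sum_option, P, eval_pow, eval_X] at this
  have h1 : ∀ x : J → ℝ, ∑ i, -t * a i * x i = -t * ∑ i, a i * x i := by
    intro x
    rw [Finset.mul_sum]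
    exact Finset.sum_congr rfl (fun i _ => by ring)
  rw [h1] at this
  rw [Finset.sum_add_distrib] at this
  have h2 : ∑ i, a i * -t * (r i).eval q = -t * ∑ i, a i * (r i).eval q := by
    rw [Finset.mul_sum]
    exact Finset.sum_congr rfl (fun i _ => by ring)
  rw [h2] at this
  nlinarith [this]

end Pool.Agent.Q112.HA
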