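import Pool.Agent.W378.KF.Ball
import Pool.Agent.W215.KF.Paths
import Pool.Agent.W305.KF.Mark
import Pool.Agent.W723.KF.Cut
import Pool.Agent.W177.KF.Hoef
import Pool.Agent.W613.KF.Flip
import Pool.Agent.W240.KF.Level
import Pool.Agent.W853.KF.SG
import Pool.Agent.W52.KF.Rec
import Pool.Agent.W372.KF.Phase
import Pool.Agent.W319.KF.Edge
import Pool.Agent.H238R2.HY.Main
import Pool.Agent.W583.KF.Lab

/-!
# Edge colourings with `D + O(q log D)` colours that avoid `q` given colours at every edge
-/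

set_option autoImplicit false

namespace Pool.Agent.Q112.LogExt

open Finset Pool.Agent.W842.KF

/-- greedy colouring -/
theorem greedy_gen {T : Type} [DecidableEq T] (adj : T → T → Prop)
    (hsymm : ∀ a b, adj a b → adj b a) (U : Finset T) (F : T → Finset ℕ) (N : ℕ)
    (A : T → Finset T) (hA : ∀ t ∈ U, ∀ t' ∈ U, t ≠ t' → adj t t' → t' ∈ A t)
    (h : ∀ t ∈ U, (A t).card + (F t).card < N) :
    ∃ f : T → ℕ, (∀ t ∈ U, f t < N ∧ f t ∉ F t) ∧
      ∀ t ∈ U, ∀ t' ∈ U, t ≠ t' → adj t t' → f t ≠ f t' := by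
  classical
  have key : ∀ S : Finset T, S ⊆ U → ∃ f : T → ℕ, (∀ t ∈ S, f t < N ∧ f t ∉ F t) ∧
      ∀ t ∈ S, ∀ t' ∈ S, t ≠ t' → adj t t' → f t ≠ f t' := by
    intro S
    induction S using Finset.induction_on with
    | empty => intro _; exact ⟨fun _ => 0, by simp, by simp⟩
    | insert a S ha ih =>
      intro hSU
      obtain ⟨f, hf1, hf2⟩ := ih (fun t ht => hSU (mem_insert_of_mem ht))
      have haU := hSU (mem_insert_self a S)
      have hcard : ((A a).image f ∪ F a).card < (range N).card := by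
        rw [card_range]
        refine lt_of_le_of_lt (card_union_le _ _) ?_
        have h1 := card_image_le (s := A a) (f := f)
        have h2 := h a haU
        omega
      obtain ⟨c, hc1, hc2⟩ := exists_mem_notMem_of_card_lt_card hcard
      rw [mem_range] at hc1
      rw [mem_union, not_or] at hc2
      have hne : ∀ t ∈ S, t ≠ a := fun t ht h => ha (h ▸ ht)
      refine ⟨Function.update f a c, ?_, ?_⟩
      · intro t ht
        rw [mem_insert] at ht
        rcases ht with rfl | ht
        · rw [Function.update_self]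
          exact ⟨hc1, hc2.2⟩
        · rw [Function.update_of_ne (hne t ht)]
          exact hf1 t ht
      · intro t ht t' ht' htt hadj
        rw [mem_insert] at ht ht'
        rcases ht with rfl | ht
        · rcases ht' with rfl | ht'
          · exact absurd rfl htt
          · rw [Function.update_self, Function.update_of_ne (hne t' ht')]
            intro he
            apply hc2.1
            rw [mem_image]
            exact ⟨t', hA t haU t' (hSU (mem_insert_of_mem ht')) htt hadj, he.symm⟩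
        · rcases ht' with rfl | ht'
          · rw [Function.update_self, Function.update_of_ne (hne t ht)]
            intro he
            apply hc2.1
            rw [mem_image]
            exact ⟨t, hA t' haU t (hSU (mem_insert_of_mem ht)) (Ne.symm htt) (hsymm _ _ hadj), he⟩
          · rw [Function.update_of_ne (hne t ht), Function.update_of_ne (hne t' ht')]
            exact hf2 t ht t' ht' htt hadj
  exact key U (Subset.refl U)

/-- greedy edge colouring with forbidden colours -/
theorem greedy_edges {V : Type} [Fintype V] (Γ : SimpleGraph V) (F : V → V → Finset ℕ)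
    (hF : ∀ u v, F u v = F v u) (N : ℕ)
    (h : ∀ u v, Γ.Adj u v → (F u v).card + (nb Γ u).card + (nb Γ v).card < N + 2) :
    ∃ c : V → V → ℕ, (∀ u v, c u v = c v u) ∧ (∀ u v, Γ.Adj u v → c u v < N) ∧
      (∀ u v, Γ.Adj u v → c u v ∉ F u v) ∧
      ∀ u v w, Γ.Adj u v → Γ.Adj u w → v ≠ w → c u v ≠ c u w := by
  classical
  let FF : Sym2 V → Finset ℕ := fun e => Sym2.lift ⟨F, hF⟩ e
  let U : Finset (Sym2 V) := univ.filter (fun e => e ∈ Γ.edgeSet)
  let adj : Sym2 V → Sym2 V → Prop := fun e e' => ∃ x, x ∈ e ∧ x ∈ e'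
  let A : Sym2 V → Finset (Sym2 V) := fun e => U.filter (fun e' => e' ≠ e ∧ adj e e')
  have hU : ∀ u v, s(u, v) ∈ U ↔ Γ.Adj u v := by
    intro u v
    simp [U]
  have hAcard : ∀ u v, Γ.Adj u v → (A s(u, v)).card + 2 ≤ (nb Γ u).card + (nb Γ v).card := by
    intro u v huv
    have hsub : A s(u, v) ⊆ ((nb Γ u).erase v).image (fun w => s(u, w)) ∪
        ((nb Γ v).erase u).image (fun w => s(v, w)) := by
      intro e he
      simp only [A, mem_filter] at he
      obtain ⟨heU, hne, x, hx1, hx2⟩ := he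
      rw [Sym2.mem_iff] at hx1
      rw [mem_union, mem_image, mem_image]
      obtain ⟨w, rfl⟩ := Sym2.mem_iff_exists.1 hx2
      rw [hU] at heU
      rcases hx1 with rfl | rfl
      · left
        refine ⟨w, ?_, rfl⟩
        rw [mem_erase, mem_nb]
        exact ⟨fun h => hne (by rw [h]), heU⟩
      · right
        refine ⟨w, ?_, rfl⟩
        rw [mem_erase, mem_nb]
        exact ⟨fun h => hne (by rw [h, Sym2.eq_swap]), heU⟩
    have h1 := (card_le_card hsub).trans (card_union_le _ _)
    have h2 := card_image_le (s := (nb Γ u).erase v) (f := fun w => s(u, w))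
    have h3 := card_image_le (s := (nb Γ v).erase u) (f := fun w => s(v, w))
    have h4 := card_erase_add_one (mem_nb.2 huv)
    have h5 := card_erase_add_one (mem_nb.2 huv.symm)
    omega
  obtain ⟨f, hf1, hf2⟩ := greedy_gen adj (fun a b ⟨x, h1, h2⟩ => ⟨x, h2, h1⟩) U FF N A
    (by
      intro t ht t' ht' htt hadj
      simp only [A, mem_filter]
      exact ⟨ht', Ne.symm htt, hadj⟩)
    (by
      intro t ht
      induction t using Sym2.ind with
      | _ u v =>
        have huv := (hU u v).1 ht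
        have h1 := hAcard u v huv
        have h2 := h u v huv
        have h3 : FF s(u, v) = F u v := rfl
        rw [h3]
        omega)
  refine ⟨fun u v => f s(u, v), fun u v => congrArg f Sym2.eq_swap, ?_, ?_, ?_⟩
  · intro u v huv
    exact (hf1 _ ((hU u v).2 huv)).1
  · intro u v huv
    exact (hf1 _ ((hU u v).2 huv)).2
  · intro u v w huv huw hvw
    refine hf2 _ ((hU u v).2 huv) _ ((hU u w).2 huw) ?_ ⟨u, by simp, by simp⟩
    intro h
    apply hvw
    rw [Sym2.congr_right] at h
    exact h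

theorem s_edge : S_EDGE := by
  have t_cut : S_CUT :=
    Pool.Agent.W723.KF.t_cut Pool.Agent.W378.KF.t_ball Pool.Agent.W378.KF.t_bmeet
      Pool.Agent.W378.KF.t_grow Pool.Agent.W215.KF.t_paths Pool.Agent.W215.KF.t_cls
      Pool.Agent.W305.KF.t_mark1 Pool.Agent.W305.KF.t_mark2
  have t_level : S_LEVEL :=
    Pool.Agent.W240.KF.t_level t_cut
      (Pool.Agent.W613.KF.t_flip Pool.Agent.W215.KF.t_cls Pool.Agent.W177.KF.t_hoef)
      Pool.Agent.W215.KF.t_kempe
  exact Pool.Agent.W319.KF.t_edge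
    (Pool.Agent.W372.KF.t_phase t_level Pool.Agent.W853.KF.t_sg Pool.Agent.W52.KF.t_rec)

/-- Edge colouring with `D + 1 + W` colours, `W = 16 q + (240 q + 88) log (D+1) + q`, which avoids
given sets of at most `q` colours at every edge. -/
theorem avoid {V : Type} [Fintype V] (Γ : SimpleGraph V) (D q : ℕ) (hD : 64 ≤ D + 1)
    (hdeg : ∀ v, (nb Γ v).card ≤ D) (hq : 1 ≤ q) (F : V → V → Finset ℕ)
    (hF : ∀ u v, F u v = F v u) (hFq : ∀ u v, (F u v).card ≤ q) (k : ℕ)
    (hk : (D : ℝ) + 17 * q + (240 * q + 88) * Real.log (D + 1) ≤ k) :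
    ∃ c : V → V → ℕ, (∀ u v, c u v = c v u) ∧ (∀ u v, Γ.Adj u v → c u v < k) ∧
      (∀ u v, Γ.Adj u v → c u v ∉ F u v) ∧
      ∀ u v w, Γ.Adj u v → Γ.Adj u w → v ≠ w → c u v ≠ c u w := by
  classical
  obtain ⟨c0, hc1, hc2, hc3⟩ := Pool.Agent.H238R2.HY.vizing Γ D (fun v => by
    rw [← Pool.Agent.W583.KFLab.card_nb]; exact hdeg v)
  let y : Fin q → V → V → ℕ := fun i v u => (F v u).toList.getD i 0
  have hy : ∀ v u, ∀ x ∈ F v u, ∃ i, y i v u = x := by
    intro v u x hx
    rw [← mem_toList] at hx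
    obtain ⟨n, hn, hnx⟩ := List.getElem_of_mem hx
    have h1 : n < q := by
      have h2 := hFq v u
      rw [length_toList] at hn
      omega
    refine ⟨⟨n, h1⟩, ?_⟩
    simp only [y]
    rw [List.getD_eq_getElem _ _ hn, hnx]
  obtain ⟨R, c1, hR, hR1, hcol, hlt, hB⟩ := s_edge V Γ c0 (D + 1) q 1 y hD hq le_rfl (by omega)
    ⟨hc1, hc3⟩ (fun v => (hdeg v).trans (Nat.le_succ _))
    (fun u v h => Nat.lt_succ_of_le (hc2 u v h))
  choose B hB1 hB2 using hB
  set L : ℝ := Real.log ((D + 1 : ℕ) : ℝ) with hL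
  have hL0 : 0 ≤ L := Real.log_natCast_nonneg _
  -- the exceptional edges
  let C : SimpleGraph V :=
    { Adj := fun u v => (Γ \ R).Adj u v ∧ c1 u v ∈ F u v
      symm := by
        constructor
        rintro u v ⟨h1, h2⟩
        refine ⟨h1.symm, ?_⟩
        rw [hcol.1 v u, hF v u]
        exact h2
      loopless := ⟨fun u h => (Γ \ R).loopless.irrefl u h.1⟩ }
  have hCB : ∀ v, nb C v ⊆ B v := by
    intro v u hu
    rw [mem_nb] at hu
    by_contra hnot
    obtain ⟨α, b, h1, h2, h3, h4⟩ := hB2 v u (mem_nb.2 hu.1) hnot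
    obtain ⟨i, hi⟩ := hy v u _ hu.2
    exact h4 i (by rw [hi]; exact ⟨h2, h3⟩)
  set Γ' := R ⊔ C with hΓ'
  have hdeg' : ∀ v, ((nb Γ' v).card : ℝ) ≤ 8 * q + (120 * q + 44) * L := by
    intro v
    have h1 : nb Γ' v ⊆ nb R v ∪ B v := by
      intro u hu
      rw [mem_nb, hΓ', SimpleGraph.sup_adj] at hu
      rw [mem_union]
      rcases hu with hu | hu
      · exact Or.inl (mem_nb.2 hu)
      · exact Or.inr (hCB v (mem_nb.2 hu))
    have h2 : ((nb Γ' v).card : ℝ) ≤ (nb R v).card + (B v).card := by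
      exact_mod_cast (card_le_card h1).trans (card_union_le _ _)
    have h3 := hR1 v
    have h4 := hB1 v
    push_cast at h4
    linarith
  have hL' : Real.log ((D : ℝ) + 1) = L := by
    rw [hL]
    push_cast
    rfl
  rw [hL'] at hk
  have hkD : D + 1 ≤ k := by
    have h1 : (1 : ℝ) ≤ q := by exact_mod_cast hq
    have h2 : ((D + 1 : ℕ) : ℝ) ≤ k := by
      push_cast
      nlinarith
    exact_mod_cast h2
  -- the new colours
  let F' : V → V → Finset ℕ := fun u v => (F u v).image (fun x => x - (D + 1))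
  obtain ⟨c2, hv1, hv2, hv3, hv4⟩ := greedy_edges Γ' F' (fun u v => by
      simp only [F']
      rw [hF]) (k - (D + 1)) (by
    intro u v huv
    have h1 := hdeg' u
    have h2 := hdeg' v
    have h3 : (F' u v).card ≤ q := card_image_le.trans (hFq u v)
    have h4 : ((F' u v).card : ℝ) ≤ q := by exact_mod_cast h3
    have h5 : (((F' u v).card + (nb Γ' u).card + (nb Γ' v).card : ℕ) : ℝ) ≤
        ((k - (D + 1) + 1 : ℕ) : ℝ) := by
      push_cast [Nat.cast_sub hkD]
      nlinarith
    have h6 : (F' u v).card + (nb Γ' u).card + (nb Γ' v).card ≤ k - (D + 1) + 1 := by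
      exact_mod_cast h5
    omega)
  let eL : V → V → ℕ := fun u v => if Γ'.Adj u v then D + 1 + c2 u v else c1 u v
  have hΓ'le : ∀ u v, Γ'.Adj u v → Γ.Adj u v := by
    intro u v h
    rw [hΓ', SimpleGraph.sup_adj] at h
    rcases h with h | h
    · exact hR h
    · exact (SimpleGraph.sdiff_adj _ _ _ _).1 h.1 |>.1
  have hold : ∀ u v, Γ.Adj u v → ¬ Γ'.Adj u v → (Γ \ R).Adj u v ∧ eL u v = c1 u v ∧
      c1 u v < D + 1 := by
    intro u v h1 h2
    have h3 : (Γ \ R).Adj u v := by
      rw [SimpleGraph.sdiff_adj]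
      exact ⟨h1, fun h => h2 (by rw [hΓ', SimpleGraph.sup_adj]; exact Or.inl h)⟩
    refine ⟨h3, ?_, hlt u v h3⟩
    simp only [eL]
    rw [if_neg h2]
  have hnew : ∀ u v, Γ'.Adj u v → eL u v = D + 1 + c2 u v ∧ c2 u v < k - (D + 1) := by
    intro u v h
    refine ⟨?_, hv2 u v h⟩
    simp only [eL]
    rw [if_pos h]
  refine ⟨eL, ?_, ?_, ?_, ?_⟩
  · intro u v
    simp only [eL]
    by_cases h : Γ'.Adj u v
    · rw [if_pos h, if_pos h.symm, hv1 u v]
    · rw [if_neg h, if_neg fun h' => h h'.symm, hcol.1 u v]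
  · intro u v huv
    by_cases h : Γ'.Adj u v
    · have := hnew u v h
      omega
    · have := hold u v huv h
      omega
  · intro u v huv
    by_cases h : Γ'.Adj u v
    · have h1 := hnew u v h
      rw [h1.1]
      intro h2
      apply hv3 u v h
      simp only [F']
      rw [mem_image]
      exact ⟨_, h2, by omega⟩
    · have h1 := hold u v huv h
      rw [h1.2.1]
      intro h2
      apply h
      rw [hΓ', SimpleGraph.sup_adj]
      exact Or.inr ⟨h1.1, h2⟩
  · intro u v w h1 h2 hne h
    by_cases g1 : Γ'.Adj u v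
    · obtain ⟨a1, a2⟩ := hnew u v g1
      by_cases g2 : Γ'.Adj u w
      · obtain ⟨b1, b2⟩ := hnew u w g2
        exact hv4 u v w g1 g2 hne (by omega)
      · obtain ⟨_, b1, b2⟩ := hold u w h2 g2
        omega
    · obtain ⟨a0, a1, a2⟩ := hold u v h1 g1
      by_cases g2 : Γ'.Adj u w
      · obtain ⟨b1, b2⟩ := hnew u w g2
        omega
      · obtain ⟨b0, b1, b2⟩ := hold u w h2 g2
        exact hcol.2 u v w a0 b0 hne (by omega)

end Pool.Agent.Q112.LogExt
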