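import Pool.Agent.H162R2.Sparse.Main

/-!
# Total colourings of sparse graphs with a prescribed colouring of a distance-3 matching

The proof follows `Pool.Agent.H162R2.Sparse.Total` (list total colourings of sparse graphs). The
vertices of the set `S` are precoloured; they are never recoloured and never used as centres of the
bipartite step.
-/

set_option autoImplicit false
set_option linter.unusedSectionVars false

namespace Pool.Agent.Q112.TotExt

open Finset Pool.Agent.H162R2.Sparse

variable {V : Type} [Fintype V] [DecidableEq V]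

/-- a total colouring from lists -/
def LT (G : SimpleGraph V) (L : V → V → Finset ℕ) (M : V → Finset ℕ) : Prop :=
  ∃ (f : V → V → ℕ) (g : V → ℕ), (∀ a b, G.Adj a b → f a b = f b a) ∧
    (∀ a b, G.Adj a b → f a b ∈ L a b) ∧
    (∀ a b c, G.Adj a b → G.Adj a c → b ≠ c → f a b ≠ f a c) ∧
    (∀ a, g a ∈ M a) ∧ (∀ a b, G.Adj a b → g a ≠ g b) ∧ (∀ a b, G.Adj a b → g a ≠ f a b)

theorem ext_edgeT (G : SimpleGraph V) (u v : V) (huv : G.Adj u v) (L : V → V → Finset ℕ)
    (M : V → Finset ℕ) (hsym : ∀ a b, L a b = L b a) (hcard : dg G u + dg G v ≤ (L u v).card)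
    (hM : 2 * dg G u < (M u).card) (IH : LT (cutE G u v) L M) : LT G L M := by
  classical
  obtain ⟨f, g, hf1, hf2, hf3, hg1, hg2, hg3⟩ := IH
  have hu : v ∈ nb G u := (mem_nb G u v).2 huv
  have hv : u ∈ nb G v := (mem_nb G v u).2 huv.symm
  have hu1 : ((nb G u).erase v).card + 1 = dg G u := Finset.card_erase_add_one hu
  have hv1 : ((nb G v).erase u).card + 1 = dg G v := Finset.card_erase_add_one hv
  obtain ⟨c, hc1, hc2⟩ : ∃ c ∈ L u v,
      c ∉ (((nb G u).erase v).image (f u) ∪ ((nb G v).erase u).image (f v)) ∪ {g v} := by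
    apply Finset.exists_mem_notMem_of_card_lt_card
    have h0 := Finset.card_union_le
      (((nb G u).erase v).image (f u) ∪ ((nb G v).erase u).image (f v)) {g v}
    have h1 := Finset.card_union_le (((nb G u).erase v).image (f u))
      (((nb G v).erase u).image (f v))
    have h2 := Finset.card_image_le (s := (nb G u).erase v) (f := f u)
    have h3 := Finset.card_image_le (s := (nb G v).erase u) (f := f v)
    rw [Finset.card_singleton] at h0
    omega
  rw [Finset.mem_union, Finset.mem_union, not_or, not_or, Finset.mem_singleton] at hc2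
  have hcu : ∀ b, G.Adj u b → b ≠ v → f u b ≠ c := by
    intro b hb hbv h
    apply hc2.1.1
    rw [← h]
    exact Finset.mem_image_of_mem _ (Finset.mem_erase.2 ⟨hbv, (mem_nb G u b).2 hb⟩)
  have hcv : ∀ b, G.Adj v b → b ≠ u → f v b ≠ c := by
    intro b hb hbv h
    apply hc2.1.2
    rw [← h]
    exact Finset.mem_image_of_mem _ (Finset.mem_erase.2 ⟨hbv, (mem_nb G v b).2 hb⟩)
  let f' : V → V → ℕ := fun a b => if (a = u ∧ b = v) ∨ (a = v ∧ b = u) then c else f a b
  obtain ⟨m, hm1, hm2⟩ : ∃ m ∈ M u, m ∉ (nb G u).image g ∪ (nb G u).image (f' u) := by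
    apply Finset.exists_mem_notMem_of_card_lt_card
    have h1 := Finset.card_union_le ((nb G u).image g) ((nb G u).image (f' u))
    have h2 := Finset.card_image_le (s := nb G u) (f := g)
    have h3 := Finset.card_image_le (s := nb G u) (f := f' u)
    unfold dg at hM
    omega
  rw [Finset.mem_union, not_or] at hm2
  have hmg : ∀ b, G.Adj u b → g b ≠ m := by
    intro b hb h
    apply hm2.1
    rw [← h]
    exact Finset.mem_image_of_mem _ ((mem_nb G u b).2 hb)
  have hmf : ∀ b, G.Adj u b → f' u b ≠ m := by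
    intro b hb h
    apply hm2.2
    rw [← h]
    exact Finset.mem_image_of_mem _ ((mem_nb G u b).2 hb)
  have hf'sym : ∀ a b, G.Adj a b → f' a b = f' b a := by
    intro a b hab
    simp only [f']
    by_cases h : (a = u ∧ b = v) ∨ (a = v ∧ b = u)
    · rw [if_pos h, if_pos (by tauto)]
    · rw [if_neg h, if_neg (by tauto)]
      exact hf1 a b ((cutE_adj G u v a b).2 ⟨hab, h⟩)
  refine ⟨f', fun a => if a = u then m else g a, hf'sym, ?_, ?_, ?_, ?_, ?_⟩
  · intro a b hab
    simp only [f']
    by_cases h : (a = u ∧ b = v) ∨ (a = v ∧ b = u)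
    · rw [if_pos h]
      rcases h with ⟨rfl, rfl⟩ | ⟨rfl, rfl⟩
      · exact hc1
      · rw [hsym]
        exact hc1
    · rw [if_neg h]
      exact hf2 a b ((cutE_adj G u v a b).2 ⟨hab, h⟩)
  · intro a b d hab had hbd
    simp only [f']
    by_cases h : (a = u ∧ b = v) ∨ (a = v ∧ b = u)
    · rw [if_pos h]
      by_cases h' : (a = u ∧ d = v) ∨ (a = v ∧ d = u)
      · exfalso
        have huv' := huv.ne
        rcases h with ⟨rfl, rfl⟩ | ⟨rfl, rfl⟩ <;> rcases h' with ⟨h1, rfl⟩ | ⟨h1, rfl⟩ <;> tauto
      · rw [if_neg h']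
        rcases h with ⟨rfl, rfl⟩ | ⟨rfl, rfl⟩
        · exact (hcu d had (fun h => hbd h.symm)).symm
        · exact (hcv d had (fun h => hbd h.symm)).symm
    · rw [if_neg h]
      by_cases h' : (a = u ∧ d = v) ∨ (a = v ∧ d = u)
      · rw [if_pos h']
        rcases h' with ⟨rfl, rfl⟩ | ⟨rfl, rfl⟩
        · exact hcu b hab hbd
        · exact hcv b hab hbd
      · rw [if_neg h']
        exact hf3 a b d ((cutE_adj G u v a b).2 ⟨hab, h⟩) ((cutE_adj G u v a d).2 ⟨had, h'⟩) hbd
  · intro a
    simp only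
    by_cases ha : a = u
    · rw [if_pos ha, ha]
      exact hm1
    · rw [if_neg ha]
      exact hg1 a
  · intro a b hab
    simp only
    by_cases ha : a = u
    · have hb : b ≠ u := by
        rintro rfl
        exact hab.ne ha
      rw [if_pos ha, if_neg hb]
      rw [ha] at hab
      exact (hmg b hab).symm
    · rw [if_neg ha]
      by_cases hb : b = u
      · rw [if_pos hb]
        rw [hb] at hab
        exact hmg a hab.symm
      · rw [if_neg hb]
        exact hg2 a b ((cutE_adj G u v a b).2 ⟨hab, by tauto⟩)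
  · intro a b hab
    simp only
    by_cases ha : a = u
    · rw [if_pos ha]
      rw [ha] at hab ⊢
      exact (hmf b hab).symm
    · rw [if_neg ha]
      simp only [f']
      by_cases h : (a = u ∧ b = v) ∨ (a = v ∧ b = u)
      · rw [if_pos h]
        rcases h with ⟨h1, _⟩ | ⟨h1, _⟩
        · exact absurd h1 ha
        · rw [h1]
          exact fun h => hc2.2 h.symm
      · rw [if_neg h]
        exact hg3 a b ((cutE_adj G u v a b).2 ⟨hab, h⟩)

/-- adding an edge at a precoloured vertex -/
theorem ext_edgeS (G : SimpleGraph V) (u v : V) (huv : G.Adj u v) (L : V → V → Finset ℕ)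
    (M : V → Finset ℕ) (hsym : ∀ a b, L a b = L b a) (hcard : dg G u + dg G v ≤ (L u v).card)
    (hM : ∀ c ∈ M u, c ∉ L u v ∧ c ∉ M v) (IH : LT (cutE G u v) L M) : LT G L M := by
  classical
  obtain ⟨f, g, hf1, hf2, hf3, hg1, hg2, hg3⟩ := IH
  have hu : v ∈ nb G u := (mem_nb G u v).2 huv
  have hv : u ∈ nb G v := (mem_nb G v u).2 huv.symm
  have hu1 : ((nb G u).erase v).card + 1 = dg G u := Finset.card_erase_add_one hu
  have hv1 : ((nb G v).erase u).card + 1 = dg G v := Finset.card_erase_add_one hv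
  obtain ⟨c, hc1, hc2⟩ : ∃ c ∈ L u v,
      c ∉ (((nb G u).erase v).image (f u) ∪ ((nb G v).erase u).image (f v)) ∪ {g v} := by
    apply Finset.exists_mem_notMem_of_card_lt_card
    have h0 := Finset.card_union_le
      (((nb G u).erase v).image (f u) ∪ ((nb G v).erase u).image (f v)) {g v}
    have h1 := Finset.card_union_le (((nb G u).erase v).image (f u))
      (((nb G v).erase u).image (f v))
    have h2 := Finset.card_image_le (s := (nb G u).erase v) (f := f u)
    have h3 := Finset.card_image_le (s := (nb G v).erase u) (f := f v)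
    rw [Finset.card_singleton] at h0
    omega
  rw [Finset.mem_union, Finset.mem_union, not_or, not_or, Finset.mem_singleton] at hc2
  have hcu : ∀ b, G.Adj u b → b ≠ v → f u b ≠ c := by
    intro b hb hbv h
    apply hc2.1.1
    rw [← h]
    exact Finset.mem_image_of_mem _ (Finset.mem_erase.2 ⟨hbv, (mem_nb G u b).2 hb⟩)
  have hcv : ∀ b, G.Adj v b → b ≠ u → f v b ≠ c := by
    intro b hb hbv h
    apply hc2.1.2
    rw [← h]
    exact Finset.mem_image_of_mem _ (Finset.mem_erase.2 ⟨hbv, (mem_nb G v b).2 hb⟩)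
  have hgu : g u ≠ c := fun h => (hM _ (hg1 u)).1 (h ▸ hc1)
  have hguv : g u ≠ g v := fun h => (hM _ (hg1 u)).2 (h ▸ hg1 v)
  let f' : V → V → ℕ := fun a b => if (a = u ∧ b = v) ∨ (a = v ∧ b = u) then c else f a b
  have hf'sym : ∀ a b, G.Adj a b → f' a b = f' b a := by
    intro a b hab
    simp only [f']
    by_cases h : (a = u ∧ b = v) ∨ (a = v ∧ b = u)
    · rw [if_pos h, if_pos (by tauto)]
    · rw [if_neg h, if_neg (by tauto)]
      exact hf1 a b ((cutE_adj G u v a b).2 ⟨hab, h⟩)
  refine ⟨f', g, hf'sym, ?_, ?_, hg1, ?_, ?_⟩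
  · intro a b hab
    simp only [f']
    by_cases h : (a = u ∧ b = v) ∨ (a = v ∧ b = u)
    · rw [if_pos h]
      rcases h with ⟨rfl, rfl⟩ | ⟨rfl, rfl⟩
      · exact hc1
      · rw [hsym]
        exact hc1
    · rw [if_neg h]
      exact hf2 a b ((cutE_adj G u v a b).2 ⟨hab, h⟩)
  · intro a b d hab had hbd
    simp only [f']
    by_cases h : (a = u ∧ b = v) ∨ (a = v ∧ b = u)
    · rw [if_pos h]
      by_cases h' : (a = u ∧ d = v) ∨ (a = v ∧ d = u)
      · exfalso
        have huv' := huv.ne
        rcases h with ⟨rfl, rfl⟩ | ⟨rfl, rfl⟩ <;> rcases h' with ⟨h1, rfl⟩ | ⟨h1, rfl⟩ <;> tauto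
      · rw [if_neg h']
        rcases h with ⟨rfl, rfl⟩ | ⟨rfl, rfl⟩
        · exact (hcu d had (fun h => hbd h.symm)).symm
        · exact (hcv d had (fun h => hbd h.symm)).symm
    · rw [if_neg h]
      by_cases h' : (a = u ∧ d = v) ∨ (a = v ∧ d = u)
      · rw [if_pos h']
        rcases h' with ⟨rfl, rfl⟩ | ⟨rfl, rfl⟩
        · exact hcu b hab hbd
        · exact hcv b hab hbd
      · rw [if_neg h']
        exact hf3 a b d ((cutE_adj G u v a b).2 ⟨hab, h⟩) ((cutE_adj G u v a d).2 ⟨had, h'⟩) hbd
  · intro a b hab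
    by_cases h : (a = u ∧ b = v) ∨ (a = v ∧ b = u)
    · rcases h with ⟨rfl, rfl⟩ | ⟨rfl, rfl⟩
      · exact hguv
      · exact hguv.symm
    · exact hg2 a b ((cutE_adj G u v a b).2 ⟨hab, h⟩)
  · intro a b hab
    simp only [f']
    by_cases h : (a = u ∧ b = v) ∨ (a = v ∧ b = u)
    · rw [if_pos h]
      rcases h with ⟨h1, _⟩ | ⟨h1, _⟩
      · rw [h1]
        exact hgu
      · rw [h1]
        exact fun h => hc2.2 h.symm
    · rw [if_neg h]
      exact hg3 a b ((cutE_adj G u v a b).2 ⟨hab, h⟩)

theorem ext_bipS (G : SimpleGraph V) (X : Finset V) (L : V → V → Finset ℕ)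
    (M : V → Finset ℕ) (hX : ∀ u ∈ X, ∀ v ∈ X, ¬ G.Adj u v)
    (hθ : ∀ u, ∑ e ∈ (ES G X).filter (fun e => e.1 = u), (1 / (hh (ES G X) e.2 : ℚ)) ≤ 1 / 16)
    (hL : ∀ a ∈ X, ∀ b, G.Adj a b → dg G b + 1 ≤ (L a b).card ∨
      (dg G b ≤ (L a b).card ∧ ∀ c ∈ M b, c ∉ L a b))
    (hM : ∀ u ∈ X, 2 * dg G u < (M u).card)
    (hsym : ∀ a b, L a b = L b a) (IH : LT (cutX G X) L M) : LT G L M := by
  classical
  obtain ⟨f, g, hf1, hf2, hf3, hg1, hg2, hg3⟩ := IH
  let L' : V × V → Finset ℕ := fun e =>
    L e.1 e.2 \ (((nb G e.2).filter (fun v => ¬ v ∈ X)).image (f e.2) ∪ {g e.2})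
  obtain ⟨col, hc1, hc2⟩ := bip_list (ES G X) hθ L' (by
    intro e he
    have h1 := dg_split G X e.2
    have h2 := Finset.card_image_le (s := (nb G e.2).filter (fun v => ¬ v ∈ X)) (f := f e.2)
    rcases hL e.1 ((mem_ES G X e).1 he).2 e.2 ((mem_ES G X e).1 he).1 with h4 | ⟨h4, h5⟩
    · have h3 := Finset.le_card_sdiff
        (((nb G e.2).filter (fun v => ¬ v ∈ X)).image (f e.2) ∪ {g e.2}) (L e.1 e.2)
      have h6 := Finset.card_union_le (((nb G e.2).filter (fun v => ¬ v ∈ X)).image (f e.2))
        {g e.2}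
      rw [Finset.card_singleton] at h6
      simp only [L']
      omega
    · have h7 : L e.1 e.2 \ (((nb G e.2).filter (fun v => ¬ v ∈ X)).image (f e.2) ∪ {g e.2}) =
          L e.1 e.2 \ ((nb G e.2).filter (fun v => ¬ v ∈ X)).image (f e.2) := by
        ext c
        rw [Finset.mem_sdiff, Finset.mem_sdiff, Finset.mem_union, Finset.mem_singleton]
        constructor
        · rintro ⟨h8, h9⟩
          exact ⟨h8, fun h => h9 (Or.inl h)⟩
        · rintro ⟨h8, h9⟩
          refine ⟨h8, ?_⟩
          rintro (h | h)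
          · exact h9 h
          · rw [h] at h8
            exact h5 _ (hg1 e.2) h8
      have h3 := Finset.le_card_sdiff
        (((nb G e.2).filter (fun v => ¬ v ∈ X)).image (f e.2)) (L e.1 e.2)
      simp only [L']
      rw [h7]
      omega)
  have hcf : ∀ a b d, a ∉ X → b ∈ X → d ∉ X → G.Adj a b → G.Adj a d → col (b, a) ≠ f a d := by
    intro a b d ha hb hd hab had h
    have h1 := hc1 (b, a) ((mem_ES G X (b, a)).2 ⟨hab.symm, hb⟩)
    simp only [L'] at h1
    rw [Finset.mem_sdiff] at h1
    apply h1.2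
    rw [h]
    exact Finset.mem_union_left _
      (Finset.mem_image_of_mem _ (Finset.mem_filter.2 ⟨(mem_nb G a d).2 had, hd⟩))
  have hcg : ∀ a b, b ∈ X → G.Adj a b → g a ≠ col (b, a) := by
    intro a b hb hab h
    have h1 := hc1 (b, a) ((mem_ES G X (b, a)).2 ⟨hab.symm, hb⟩)
    simp only [L'] at h1
    rw [Finset.mem_sdiff] at h1
    apply h1.2
    rw [← h]
    exact Finset.mem_union_right _ (Finset.mem_singleton_self _)
  let f' : V → V → ℕ := fun a b => if a ∈ X then col (a, b) else if b ∈ X then col (b, a) else f a b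
  have hm : ∀ u, ∃ m, u ∈ X → m ∈ M u ∧ m ∉ (nb G u).image g ∪ (nb G u).image (f' u) := by
    intro u
    by_cases hu : u ∈ X
    · obtain ⟨m, hm1, hm2⟩ : ∃ m ∈ M u, m ∉ (nb G u).image g ∪ (nb G u).image (f' u) := by
        apply Finset.exists_mem_notMem_of_card_lt_card
        have h1 := Finset.card_union_le ((nb G u).image g) ((nb G u).image (f' u))
        have h2 := Finset.card_image_le (s := nb G u) (f := g)
        have h3 := Finset.card_image_le (s := nb G u) (f := f' u)
        have h4 := hM u hu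
        unfold dg at h4
        omega
      exact ⟨m, fun _ => ⟨hm1, hm2⟩⟩
    · exact ⟨0, fun h => absurd h hu⟩
  choose m hm using hm
  have hm1 : ∀ u, u ∈ X → m u ∈ M u := fun u hu => (hm u hu).1
  have hmg : ∀ u b, u ∈ X → G.Adj u b → g b ≠ m u := by
    intro u b hu hb h
    apply (hm u hu).2
    rw [← h]
    exact Finset.mem_union_left _ (Finset.mem_image_of_mem _ ((mem_nb G u b).2 hb))
  have hmf : ∀ u b, u ∈ X → G.Adj u b → f' u b ≠ m u := by
    intro u b hu hb h
    apply (hm u hu).2
    rw [← h]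
    exact Finset.mem_union_right _ (Finset.mem_image_of_mem _ ((mem_nb G u b).2 hb))
  refine ⟨f', fun a => if a ∈ X then m a else g a, ?_, ?_, ?_, ?_, ?_, ?_⟩
  · intro a b hab
    simp only [f']
    by_cases ha : a ∈ X
    · have hb : b ∉ X := fun hb => hX a ha b hb hab
      rw [if_pos ha, if_neg hb, if_pos ha]
    · by_cases hb : b ∈ X
      · rw [if_neg ha, if_pos hb, if_pos hb]
      · rw [if_neg ha, if_neg hb, if_neg hb, if_neg ha]
        exact hf1 a b ((cutX_adj G X a b).2 ⟨hab, ha, hb⟩)
  · intro a b hab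
    simp only [f']
    by_cases ha : a ∈ X
    · rw [if_pos ha]
      have h1 := hc1 (a, b) ((mem_ES G X (a, b)).2 ⟨hab, ha⟩)
      simp only [L'] at h1
      exact (Finset.mem_sdiff.1 h1).1
    · by_cases hb : b ∈ X
      · rw [if_neg ha, if_pos hb]
        have h1 := hc1 (b, a) ((mem_ES G X (b, a)).2 ⟨hab.symm, hb⟩)
        simp only [L'] at h1
        rw [hsym]
        exact (Finset.mem_sdiff.1 h1).1
      · rw [if_neg ha, if_neg hb]
        exact hf2 a b ((cutX_adj G X a b).2 ⟨hab, ha, hb⟩)
  · intro a b d hab had hbd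
    simp only [f']
    by_cases ha : a ∈ X
    · rw [if_pos ha, if_pos ha]
      apply hc2 _ ((mem_ES G X (a, b)).2 ⟨hab, ha⟩) _ ((mem_ES G X (a, d)).2 ⟨had, ha⟩)
      · intro h
        exact hbd (Prod.ext_iff.1 h).2
      · left
        rfl
    · rw [if_neg ha, if_neg ha]
      by_cases hb : b ∈ X
      · rw [if_pos hb]
        by_cases hd : d ∈ X
        · rw [if_pos hd]
          apply hc2 _ ((mem_ES G X (b, a)).2 ⟨hab.symm, hb⟩) _
            ((mem_ES G X (d, a)).2 ⟨had.symm, hd⟩)
          · intro h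
            exact hbd (Prod.ext_iff.1 h).1
          · right
            rfl
        · rw [if_neg hd]
          exact hcf a b d ha hb hd hab had
      · rw [if_neg hb]
        by_cases hd : d ∈ X
        · rw [if_pos hd]
          exact (hcf a d b ha hd hb had hab).symm
        · rw [if_neg hd]
          exact hf3 a b d ((cutX_adj G X a b).2 ⟨hab, ha, hb⟩)
            ((cutX_adj G X a d).2 ⟨had, ha, hd⟩) hbd
  · intro a
    simp only
    by_cases ha : a ∈ X
    · rw [if_pos ha]
      exact hm1 a ha
    · rw [if_neg ha]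
      exact hg1 a
  · intro a b hab
    simp only
    by_cases ha : a ∈ X
    · have hb : b ∉ X := fun hb => hX a ha b hb hab
      rw [if_pos ha, if_neg hb]
      exact (hmg a b ha hab).symm
    · rw [if_neg ha]
      by_cases hb : b ∈ X
      · rw [if_pos hb]
        exact hmg b a hb hab.symm
      · rw [if_neg hb]
        exact hg2 a b ((cutX_adj G X a b).2 ⟨hab, ha, hb⟩)
  · intro a b hab
    simp only
    by_cases ha : a ∈ X
    · rw [if_pos ha]
      exact (hmf a b ha hab).symm
    · rw [if_neg ha]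
      simp only [f']
      rw [if_neg ha]
      by_cases hb : b ∈ X
      · rw [if_pos hb]
        exact hcg a b hb hab
      · rw [if_neg hb]
        exact hg3 a b ((cutX_adj G X a b).2 ⟨hab, ha, hb⟩)

/-- The structural lemma: the centres avoid the precoloured vertices. -/
theorem structS (G : SimpleGraph V) (D : ℕ) (a : ℝ) (S0 : Finset V) (hD : ∀ v, dg G v ≤ D)
    (hdens : Dens G a) (ha : 40 * a * (1 + Real.log D) ≤ D) (hedge : ∃ u v, G.Adj u v)
    (hno1 : ∀ u v, G.Adj u v → u ∉ S0 → v ∉ S0 → (dg G u : ℝ) ≤ 2 * a → D + 2 ≤ dg G u + dg G v)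
    (hno2 : ∀ u v, G.Adj u v → u ∈ S0 → D ≤ dg G u + dg G v)
    (hS2 : ∀ w, ((nb G w).filter (fun s => s ∈ S0)).card ≤ 2) :
    ∃ X : Finset V, X.Nonempty ∧ (∀ u ∈ X, u ∉ S0 ∧ 1 ≤ dg G u ∧ (dg G u : ℝ) ≤ 2 * a ∧
        40 * (a : ℝ) ≤ D) ∧
      (∀ u ∈ X, ∀ v ∈ X, ¬ G.Adj u v) ∧
      ∀ u, ∑ e ∈ (ES G X).filter (fun e => e.1 = u), (1 / (hh (ES G X) e.2 : ℚ)) ≤ 1 / 16 := by
  classical
  let T : Finset V := Finset.univ.filter (fun v => 1 ≤ dg G v)
  let S : Finset V := T.filter (fun v => (dg G v : ℝ) ≤ 2 * a)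
  let R : Finset V := T.filter (fun v => ¬ (dg G v : ℝ) ≤ 2 * a)
  let S' : Finset V := S.filter (fun v => ¬ v ∈ S0)
  let P : Finset V := S.filter (fun v => v ∈ S0)
  let B : Finset V := Finset.univ.filter (fun w => ∃ u ∈ S, G.Adj u w)
  have hdpos : ∀ u v, G.Adj u v → 1 ≤ dg G v := by
    intro u v h
    unfold dg
    rw [Nat.one_le_iff_ne_zero, Finset.card_ne_zero]
    exact ⟨u, (mem_nb G v u).2 h.symm⟩
  have hmT : ∀ v, v ∈ T ↔ 1 ≤ dg G v := by
    intro v
    simp [T]
  have hT0 : T.Nonempty := by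
    obtain ⟨u, v, h⟩ := hedge
    exact ⟨v, (hmT v).2 (hdpos u v h)⟩
  have hTpos : (0 : ℝ) < T.card := by
    exact_mod_cast Finset.card_pos.2 hT0
  have hsumT : (∑ v ∈ T, (dg G v : ℝ)) ≤ a * T.card := by
    have h1 := hdens T
    refine le_trans ?_ h1
    have h2 := card_ES G T
    have h3 : (∑ v ∈ T, (dg G v : ℝ)) = ((ES G T).card : ℝ) := by
      rw [h2]
      push_cast
      rfl
    rw [h3]
    have h4 : (ES G T).card ≤ ((pr G).filter (fun e => e.1 ∈ T ∧ e.2 ∈ T)).card := by
      apply Finset.card_le_card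
      intro e he
      rw [mem_ES] at he
      rw [Finset.mem_filter, mem_pr]
      exact ⟨he.1, he.2, (hmT _).2 (hdpos _ _ he.1)⟩
    exact_mod_cast h4
  have ha1 : 1 ≤ a := by
    have h1 : (T.card : ℝ) ≤ ∑ v ∈ T, (dg G v : ℝ) := by
      have h2 : (T.card : ℝ) = ∑ v ∈ T, (1 : ℝ) := by simp
      rw [h2]
      apply Finset.sum_le_sum
      intro v hv
      exact_mod_cast (hmT v).1 hv
    have h3 : (T.card : ℝ) ≤ a * T.card := h1.trans hsumT
    by_contra hcon
    push Not at hcon
    nlinarith
  have hlog : 0 ≤ Real.log (D : ℝ) := Real.log_natCast_nonneg D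
  have ha34 : 40 * a ≤ D := by nlinarith
  have hRS : (S.card : ℝ) + R.card = T.card := by
    have h1 := Finset.card_filter_add_card_filter_not (s := T) (fun v => (dg G v : ℝ) ≤ 2 * a)
    exact_mod_cast h1
  have hPS : (P.card : ℝ) + S'.card = S.card := by
    have h1 := Finset.card_filter_add_card_filter_not (s := S) (fun v => v ∈ S0)
    exact_mod_cast h1
  have hR : 2 * a * R.card ≤ a * T.card := by
    refine le_trans ?_ hsumT
    have h1 : (∑ v ∈ R, (dg G v : ℝ)) ≤ ∑ v ∈ T, (dg G v : ℝ) := by
      apply Finset.sum_le_sum_of_subset_of_nonneg (Finset.filter_subset _ _)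
      intro v _ _
      positivity
    refine le_trans ?_ h1
    have h2 : 2 * a * (R.card : ℝ) = ∑ v ∈ R, (2 * a) := by
      rw [Finset.sum_const, nsmul_eq_mul]
      ring
    rw [h2]
    apply Finset.sum_le_sum
    intro v hv
    rw [Finset.mem_filter] at hv
    linarith [hv.2]
  have hS : (T.card : ℝ) ≤ 2 * S.card := by
    have h1 : 2 * (R.card : ℝ) ≤ T.card := by
      by_contra hcon
      push Not at hcon
      nlinarith
    linarith
  have hBT : B ⊆ T := by
    intro w hw
    rw [Finset.mem_filter] at hw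
    obtain ⟨_, u, _, h⟩ := hw
    exact (hmT w).2 (hdpos u w h)
  have hB : ((D : ℝ) - 2 * a) * B.card ≤ a * T.card := by
    refine le_trans ?_ hsumT
    have h1 : ((D : ℝ) - 2 * a) * B.card ≤ ∑ v ∈ B, (dg G v : ℝ) := by
      have h2 : ((D : ℝ) - 2 * a) * B.card = ∑ v ∈ B, ((D : ℝ) - 2 * a) := by
        rw [Finset.sum_const, nsmul_eq_mul]
        ring
      rw [h2]
      apply Finset.sum_le_sum
      intro w hw
      rw [Finset.mem_filter] at hw
      obtain ⟨_, u, hu, h⟩ := hw
      rw [Finset.mem_filter] at hu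
      have h3 : D ≤ dg G u + dg G w := by
        by_cases h5 : u ∈ S0
        · exact hno2 u w h h5
        · by_cases h6 : w ∈ S0
          · have := hno2 w u h.symm h6
            omega
          · have := hno1 u w h h5 h6 hu.2
            omega
      have h4 : (D : ℝ) ≤ dg G u + dg G w := by exact_mod_cast h3
      linarith [hu.2]
    have h2 : (∑ v ∈ B, (dg G v : ℝ)) ≤ ∑ v ∈ T, (dg G v : ℝ) := by
      apply Finset.sum_le_sum_of_subset_of_nonneg hBT
      intro v _ _
      positivity
    exact h1.trans h2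
  have hBn : (0 : ℝ) ≤ B.card := by positivity
  have hB2 : 38 * (1 + Real.log D) * B.card ≤ T.card := by
    have h1 : 38 * a * (1 + Real.log D) ≤ (D : ℝ) - 2 * a := by nlinarith
    have h2 : 38 * a * (1 + Real.log D) * B.card ≤ a * T.card :=
      (mul_le_mul_of_nonneg_right h1 hBn).trans hB
    have h3 : a * (38 * (1 + Real.log D) * B.card) ≤ a * T.card := by
      calc a * (38 * (1 + Real.log D) * B.card) = 38 * a * (1 + Real.log D) * B.card := by ring
        _ ≤ _ := h2
    exact le_of_mul_le_mul_left h3 (by linarith)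
  have hP : (P.card : ℝ) ≤ 2 * B.card := by
    have h1 : P ⊆ B.biUnion (fun w => (nb G w).filter (fun s => s ∈ S0)) := by
      intro s hs
      rw [Finset.mem_filter] at hs
      have h2 := hs.1
      rw [Finset.mem_filter] at h2
      have h3 := (hmT s).1 h2.1
      unfold dg at h3
      rw [Nat.one_le_iff_ne_zero, Finset.card_ne_zero] at h3
      obtain ⟨w, hw⟩ := h3
      rw [mem_nb] at hw
      rw [Finset.mem_biUnion]
      refine ⟨w, ?_, ?_⟩
      · rw [Finset.mem_filter]
        exact ⟨Finset.mem_univ _, s, hs.1, hw⟩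
      · rw [Finset.mem_filter, mem_nb]
        exact ⟨hw.symm, hs.2⟩
    have h2 := (Finset.card_le_card h1).trans (Finset.card_biUnion_le_card_mul _ _ 2
      (fun w _ => hS2 w))
    have h3 : (P.card : ℝ) ≤ B.card * 2 := by exact_mod_cast h2
    linarith
  have hHW : 16 * (HW (ES G S') : ℝ) < (S'.card : ℝ) := by
    have h1 := HW_le (ES G S') D (fun w => (hh_ES_le G S' w).trans (hD w)) B (by
      intro e he
      rw [mem_ES] at he
      rw [Finset.mem_filter]
      exact ⟨Finset.mem_univ _, e.1, (Finset.mem_filter.1 he.2).1, he.1⟩)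
    have h2 : (B.card : ℝ) ≤ (1 + Real.log D) * B.card := by nlinarith
    nlinarith
  obtain ⟨X, hX1, hX2, hX3⟩ := peel (ES G S') S' (by
    intro e he
    exact ((mem_ES G S' e).1 he).2) (by
    have h1 : ((16 * HW (ES G S') : ℚ) : ℝ) < ((S'.card : ℚ) : ℝ) := by
      push_cast
      exact hHW
    exact_mod_cast h1)
  have hEX : (ES G S').filter (fun e => e.1 ∈ X) = ES G X := by
    ext e
    rw [Finset.mem_filter, mem_ES, mem_ES]
    constructor
    · rintro ⟨⟨h1, _⟩, h2⟩
      exact ⟨h1, h2⟩
    · rintro ⟨h1, h2⟩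
      exact ⟨⟨h1, hX1 h2⟩, h2⟩
  rw [hEX] at hX3
  refine ⟨X, hX2, ?_, ?_, hX3⟩
  · intro u hu
    have h1 := hX1 hu
    rw [Finset.mem_filter, Finset.mem_filter] at h1
    exact ⟨h1.2, (hmT u).1 h1.1.1, h1.1.2, ha34⟩
  · intro u hu v hv h
    have h1 := hX1 hu
    have h2 := hX1 hv
    rw [Finset.mem_filter, Finset.mem_filter] at h1 h2
    have h3 := hno1 u v h h1.2 h2.2 h1.1.2
    have h4 : (D : ℝ) + 2 ≤ dg G u + dg G v := by exact_mod_cast h3
    linarith [h1.1.2, h2.1.2]

theorem main_ext (D : ℕ) (a : ℝ) (ha : 40 * a * (1 + Real.log D) ≤ D)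
    (L : V → V → Finset ℕ) (M : V → Finset ℕ) (S : Finset V)
    (hsym : ∀ a b, L a b = L b a) (hMS : ∀ v, (M v).Nonempty)
    (hM : ∀ v, v ∉ S → D ≤ (M v).card + 1) :
    ∀ (n : ℕ) (G : SimpleGraph V), (pr G).card = n → (∀ v, dg G v ≤ D) →
      (∀ s ∈ S, dg G s + 1 ≤ D) → Dens G a →
      (∀ u v, G.Adj u v → u ∉ S → v ∉ S → D + 1 ≤ (L u v).card) →
      (∀ s ∈ S, ∀ w, G.Adj s w → w ∉ S ∧ D ≤ (L s w).card + 1 ∧ ∀ c ∈ M s, c ∉ L s w ∧ c ∉ M w) →
      (∀ w, ((nb G w).filter (fun s => s ∈ S)).card ≤ 2) → LT G L M := by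
  classical
  intro n
  induction n using Nat.strong_induction_on with
  | _ n ih =>
    intro G hn hD hDS hdens hL hLS hS2
    have hstep : ∀ H : SimpleGraph V, (∀ a b, H.Adj a b → G.Adj a b) →
        (pr H).card < (pr G).card → LT H L M := by
      intro H hmono hlt
      apply ih _ (hn ▸ hlt) H rfl
      · intro w
        exact (dg_mono hmono w).trans (hD w)
      · intro s hs
        have := dg_mono hmono s
        have := hDS s hs
        omega
      · exact Dens_mono hmono hdens
      · intro x y hxy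
        exact hL x y (hmono x y hxy)
      · intro s hs w hsw
        exact hLS s hs w (hmono s w hsw)
      · intro w
        refine le_trans (Finset.card_le_card ?_) (hS2 w)
        intro x hx
        rw [Finset.mem_filter, mem_nb] at hx ⊢
        exact ⟨hmono w x hx.1, hx.2⟩
    by_cases hedge : ∃ u v, G.Adj u v
    · by_cases hsmall : ∃ u v, G.Adj u v ∧ u ∉ S ∧ v ∉ S ∧ dg G u + dg G v ≤ D + 1 ∧
          2 * dg G u + 2 ≤ D
      · obtain ⟨u, v, huv, hu, hv, hdeg, hu2⟩ := hsmall
        have hmono : ∀ a b, (cutE G u v).Adj a b → G.Adj a b := by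
          intro a b h
          exact ((cutE_adj G u v a b).1 h).1
        apply ext_edgeT G u v huv L M hsym
        · have := hL u v huv hu hv
          omega
        · have := hM u hu
          omega
        · apply hstep _ hmono
          apply pr_card_lt hmono u v huv
          rw [cutE_adj]
          tauto
      · by_cases hsmall2 : ∃ s w, G.Adj s w ∧ s ∈ S ∧ dg G s + dg G w + 1 ≤ D
        · obtain ⟨s, w, hsw, hs, hdeg⟩ := hsmall2
          have hmono : ∀ a b, (cutE G s w).Adj a b → G.Adj a b := by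
            intro a b h
            exact ((cutE_adj G s w a b).1 h).1
          obtain ⟨h1, h2, h3⟩ := hLS s hs w hsw
          apply ext_edgeS G s w hsw L M hsym (by omega) h3
          apply hstep _ hmono
          apply pr_card_lt hmono s w hsw
          rw [cutE_adj]
          tauto
        · push Not at hsmall hsmall2
          have ha0 : ∀ u v, G.Adj u v → (dg G u : ℝ) ≤ 2 * a → 2 * dg G u + 2 ≤ D := by
            intro u v huv h
            have hlog : 0 ≤ Real.log (D : ℝ) := Real.log_natCast_nonneg D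
            have h0 : (1 : ℝ) ≤ dg G u := by
              have : 1 ≤ dg G u := by
                unfold dg
                rw [Nat.one_le_iff_ne_zero, Finset.card_ne_zero]
                exact ⟨v, (mem_nb G u v).2 huv⟩
              exact_mod_cast this
            have h1 : (2 * (dg G u : ℝ) + 2) ≤ D := by nlinarith
            exact_mod_cast h1
          obtain ⟨X, hX1, hX2, hX3, hX4⟩ := structS G D a S hD hdens ha hedge (by
            intro u v huv hu hv h
            have h1 := hsmall u v huv hu hv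
            have h2 := ha0 u v huv h
            by_contra hcon
            have h3 := h1 (by omega)
            omega) (by
            intro u v huv hu
            have h1 := hsmall2 u v huv hu
            omega) hS2
          have hmono : ∀ a b, (cutX G X).Adj a b → G.Adj a b := by
            intro a b h
            exact ((cutX_adj G X a b).1 h).1
          have hXn : ∀ u ∈ X, ∃ v, G.Adj u v := by
            intro u hu
            have h1 := (hX2 u hu).2.1
            unfold dg at h1
            rw [Nat.one_le_iff_ne_zero, Finset.card_ne_zero] at h1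
            obtain ⟨v, hv⟩ := h1
            rw [mem_nb] at hv
            exact ⟨v, hv⟩
          refine ext_bipS G X L M hX3 hX4 ?_ ?_ hsym ?_
          · intro u hu w huw
            by_cases hw : w ∈ S
            · right
              obtain ⟨h1, h2, h3⟩ := hLS w hw u huw.symm
              rw [hsym u w]
              refine ⟨?_, fun c hc => (h3 c hc).1⟩
              have := hDS w hw
              omega
            · left
              have := hL u w huw (hX2 u hu).1 hw
              have := hD w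
              omega
          · intro u hu
            obtain ⟨v, hv⟩ := hXn u hu
            have h2 := ha0 u v hv (hX2 u hu).2.2.1
            have := hM u (hX2 u hu).1
            omega
          apply hstep _ hmono
          obtain ⟨u, hu⟩ := hX1
          obtain ⟨v, hv⟩ := hXn u hu
          apply pr_card_lt hmono u v hv
          rw [cutX_adj]
          tauto
    · push Not at hedge
      have hM0 : ∀ v, ∃ m, m ∈ M v := fun v => hMS v
      choose g hg using hM0
      exact ⟨fun _ _ => 0, g, fun x y h => absurd h (hedge x y),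
        fun x y h => absurd h (hedge x y), fun x y z h => absurd h (hedge x y), hg,
        fun x y h => absurd h (hedge x y), fun x y h => absurd h (hedge x y)⟩

end Pool.Agent.Q112.TotExt
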